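import Pool.Agent.helper95.RF.SpecC
import Pool.Agent.helper95.T6.SpecE

set_option autoImplicit false

/-!
# RF stage 2 (MP_16912e_nt, exact order for real quadratic fields), block C' (helper95)

RULES. Row `rg:XXX`: file `Pool/Agent/<seat>/RG/XXX.lean`, `import Pool.Agent.helper95.RF.SpecC3`, `set_option autoImplicit false`, `namespace Pool.Agent.RF`,
`open Finset NumberField Pool.Agent.helper3.FT`, auxiliary lemmas prefixed `XXX_`; the EXACT theorem line is in the lock note. No `convert`, `congr!`, `native_decide`, no double quotes. Rows are independent (other rows only as hypotheses).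

NOTATION as in SpecC.lean (`x'` = `star x`, `q = |norm k|`). NOW `q` IS COMPOSITE. Facts for `IsCoprime k (star k)`, `q` coprime to `10`: (F1) an integer divisible by `k ^ j` is divisible by `q ^ j` (it is divisible by `k ^ j` and, conjugating, by `k' ^ j`, which are coprime, so by `(k k')^j`);
(F2) for every `x : OO` and `j` there is an integer `r` with `k ^ j ∣ x - r`: `1 = u k ^ j + v k' ^ j`, conjugate; with `t = v k' ^ j` (`≡ 1` modulo `k ^ j`, `≡ 0` modulo `k' ^ j`) the element `x t + x' t'` is conjugation invariant, so an integer `r` (`z = a + b φ`, `z' = z` gives `b = 0`), and `r ≡ x t + x' t' ≡ x` modulo `k ^ j` (`k ^ j ∣ t'`).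
`(z.norm : OO) = z z'`; `va`, `vb` are ring homomorphisms, `va z * vb z = norm z`, `va z' = vb z`. `E = 16 * 5 ^ 6 * P`.

SIZES. `ρ ≥ 1` large, `X ^ 2 = √N / ρ`, `q ∈ (X², 1.08 X²)`, `S ^ 3 = 500 N X ^ 8`, so `S ≍ N ρ^(-4/3)`; the expected number of tuples is `≍ P^(-5) S² / X⁴ ≍ P^(-5) ρ^(-2/3) N`, the diagonal error `√S X² ≍ ρ^(-5/3) N`. `X⁴ / S = ρ^(-2/3) / 7.94`.
-/

namespace Pool.Agent.RF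

open Finset NumberField Pool.Agent.helper3.FT

/-! ## Definitions -/

/-- the moduli: balanced, `gcd (k, k') = 1`, any norm prime to `10` in `(Q, 2 Q]` -/
structure KG (Q : ℕ) (k : OO) : Prop where
  cp : IsCoprime k (star k)
  q10 : Nat.Coprime k.norm.natAbs 10
  lo : Q < k.norm.natAbs
  hi : k.norm.natAbs ≤ 2 * Q
  ba : |va k| ≤ 2 * √(Q : ℝ)
  bb : |vb k| ≤ 2 * √(Q : ℝ)

/-- the residues of the family `M = μ (x + y φ)`, `s = P s₂`: `s₂ ≡ a₀ x² + a₁ x y + a₂ y²` modulo `q³` -/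
structure RM (k μ : OO) (P : ℤ) (a : ℤ × ℤ × ℤ) : Prop where
  ha : k ^ 3 ∣ star k ^ 2 * (r5 * ((P * a.1 : ℤ) : OO) - (μ.norm : OO)) - 2 * ph * k ^ 2 * μ ^ 2
  hb : k ^ 3 ∣ star k ^ 2 * (r5 * ((P * a.2.1 : ℤ) : OO) - (μ.norm : OO)) - 4 * ph ^ 2 * k ^ 2 * μ ^ 2
  hc : k ^ 3 ∣ star k ^ 2 * (r5 * ((P * a.2.2 : ℤ) : OO) + (μ.norm : OO)) - 2 * ph ^ 3 * k ^ 2 * μ ^ 2

/-- the sum of the near points for one `k` -/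
noncomputable def NK (B T E : ℕ) (k : OO) (a : ℤ × ℤ × ℤ) : ℝ :=
  ∑ h ∈ Ico 1 T, √((nearPts B B ((h * E : ℕ) * a.1 / (k.norm.natAbs : ℝ) ^ 3)
    ((h * E : ℕ) * a.2.1 / (k.norm.natAbs : ℝ) ^ 3) ((h * E : ℕ) * a.2.2 / (k.norm.natAbs : ℝ) ^ 3)).card : ℝ)

open Classical in
/-- the set of all `k` -/
noncomputable def KT (X : ℝ) (e : ℕ) : Finset OO :=
  ((Icc 1 ⌊X⌋₊ ×ˢ Icc 1 ⌊X⌋₊).filter (fun p => 98 / 100 * X < p.1 ∧ (p.1 : ℝ) ≤ X ∧ 8 / 100 * X < p.2 ∧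
    (p.2 : ℝ) ≤ 85 / 1000 * X ∧ Nat.Coprime p.1 p.2 ∧ (e : ℤ) ∣ (p.1 : ℤ) - 1 ∧ (e : ℤ) ∣ (p.2 : ℤ) - 1)).image
    (fun p => (⟨(p.1 : ℤ), (p.2 : ℤ)⟩ : OO))

/-- the size of `s` -/
noncomputable def SZ (N X : ℝ) : ℝ := (500 * N * X ^ 8) ^ (1 / 3 : ℝ)

/-- a tuple `(k, M, s)` of the box -/
structure TP (P : ℕ) (N X : ℝ) (M₀ : OO → OO) (s₀ : OO → ℤ) (t : OO × OO × ℤ) : Prop where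
  kk : t.1 ∈ KT X (10 * P)
  cg : CG t.1 t.2.1 t.2.2
  cm : ((16 * 5 ^ 6 * P : ℕ) : OO) ∣ t.2.1 - M₀ t.1
  cs : ((16 * 5 ^ 6 * P : ℕ) : ℤ) ∣ t.2.2 - s₀ t.1
  m1 : |(t.2.1.re : ℝ)| ≤ √(SZ N X) / 100
  m2 : |(t.2.1.im : ℝ)| ≤ √(SZ N X) / 100
  s1 : SZ N X / 2 < t.2.2
  s2 : (t.2.2 : ℝ) ≤ SZ N X

/-- the tuples which are bad at the prime `l` -/
def BadT (l : ℕ) (t : OO × OO × ℤ) : Prop :=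
  (l : ℤ) ∣ t.2.1.norm ∧ ((l : ℤ) ∣ t.2.2 ∨ (l : ℤ) ∣ t.1.norm)

/-- a point of stage 2: `gcd (k, n) = 1` is replaced by `gcd (k, k') = 1` and the congruence `e5` -/
structure IsPt2 (p : Pt) : Prop where
  /-- `X² + √5 φ D K² = n² n'` -/
  e1 : p.X ^ 2 + w2 * (p.D : OO) * (25 * p.k) ^ 2 = p.n ^ 2 * star p.n
  /-- `n M = φ X' K - X K'` -/
  e2 : p.n * p.M = ph * star p.X * (25 * p.k) - p.X * star (25 * p.k)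
  /-- `K ∣ M² - n' K'²` -/
  e5 : 25 * p.k ∣ p.M ^ 2 - star p.n * star (25 * p.k) ^ 2
  X1 : (25 : OO) ∣ p.X - 1
  n1 : (25 : OO) ∣ p.n - 1
  kk : IsCoprime p.k (star p.k)
  k10 : IsCoprime p.k 10
  n2 : IsCoprime 2 p.n
  k0 : p.k ≠ 0
  D0 : 0 < p.D
  D20 : p.D % 20 = 17

/-- OUTPUT OF BLOCK C' -/
def PTS3_stmt : Prop :=
  ∃ c₀ : ℝ, 0 < c₀ ∧ ∃ ρ₀ : ℝ, ∀ ρ : ℝ, ρ₀ ≤ ρ → ∃ N₀ : ℝ, ∀ N : ℝ, N₀ ≤ N → ∃ P : Finset Pt,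
    c₀ * ρ ^ (-(2 / 3) : ℝ) * N ≤ (P.card : ℝ) ∧
    (∀ p ∈ P, IsPt2 p ∧ √N ≤ (p.D : ℝ) ∧ (p.D : ℝ) ≤ N ∧ |p.n.norm| ≤ p.D ∧
      ∀ l : ℕ, l.Prime → (l : ℝ) ≤ ρ ^ (7 / 10 : ℝ) → ¬ (l : OO) ∣ p.n ∧
        ¬ ((l : ℤ) ∣ p.k.norm ∧ (l : ℤ) ∣ p.n.norm)) ∧
    (∀ p ∈ P, ∀ q ∈ P, p.k ∣ q.k → q.k ∣ p.k → p.k = q.k)

/-! ## Input from block W' (helper88) -/

/-- near points of a family `M = c g M₂`, `s = c norm g s₂` -/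
def NKA_stmt : Prop :=
  ∃ C : ℝ, 1 ≤ C ∧ ∀ (Q B T E c : ℕ) (G R : ℝ) (g : OO) (W : Finset OO) (a : OO → ℤ × ℤ × ℤ),
    1 ≤ Q → 1 ≤ B → 1 ≤ T → 1 ≤ E → 1 ≤ c → 1 ≤ G → g ≠ 0 → |va g| ≤ 2 * G → |vb g| ≤ 2 * G →
    (E : ℝ) * T * c * G * B / (Q : ℝ) ^ (3 / 2 : ℝ) + G * (Q : ℝ) ^ (3 / 2 : ℝ) / B ≤ R →
    (∀ k ∈ W, KG Q k ∧ IsCoprime k (star g) ∧ Nat.Coprime c k.norm.natAbs ∧
      RQ k g c (a k).1 (a k).2.1 (a k).2.2) → (∀ k ∈ W, ∀ k₁ ∈ W, k ∣ k₁ → k₁ ∣ k → k = k₁) →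
    ∑ k ∈ W, NK B T E k (a k) ≤ C * (T * Q + R ^ (3 / 2 : ℝ) * ((T : ℝ) ^ (5 / 4 : ℝ) + Q * (T : ℝ) ^ (1 / 4 : ℝ)))

/-- near points of a family `M = g M₂`, `s` free, with `l = |norm g|` and `l ∣ norm k` -/
def NKB_stmt : Prop :=
  ∃ C : ℝ, 1 ≤ C ∧ ∀ (Q B T E l : ℕ) (R : ℝ) (g : OO) (W : Finset OO) (a : OO → ℤ × ℤ × ℤ),
    1 ≤ Q → 1 ≤ B → 1 ≤ T → 1 ≤ E → l.Prime → g.norm.natAbs = l → |va g| ≤ 3 * √(l : ℝ) →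
    |vb g| ≤ 3 * √(l : ℝ) →
    ((E : ℝ) * T * l * √(l : ℝ) * B + √(l : ℝ) * (Q : ℝ) ^ 3 / B) / (Q : ℝ) ^ (3 / 2 : ℝ) ≤ R →
    (∀ k ∈ W, KG Q k ∧ (l : ℤ) ∣ k.norm ∧ RM k g 1 (a k)) → (∀ k ∈ W, ∀ k₁ ∈ W, k ∣ k₁ → k₁ ∣ k → k = k₁) →
    ∑ k ∈ W, NK B T E k (a k) ≤ C * (T * Q / l + R ^ (3 / 2 : ℝ) * ((T : ℝ) ^ (5 / 4 : ℝ) + Q * (T : ℝ) ^ (1 / 4 : ℝ) / l))

/-! ## 1. One `k` -/

/-- **GRM** (short-medium, algebra).  Existence of residues, and the relation to `RQ`.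
Proof. (1) For given `k, μ, P` with `P` coprime to `q`: by (F2) (modulo `k ^ 3`) there are integers: `5 = r5 ^ 2`, `k'` and `P` are units modulo `k ^ 3`: `a₀ ≡ (r5 P k'²)⁻¹ (k'² norm μ + 2 φ k² μ²)` etc. (solve `k'² r5 P a ≡ w` modulo `k³`: `u k' ≡ 1`, `5 v ≡ 1`, `P w₁ ≡ 1`, then `a ≡ u² v r5 w₁ w`, and (F2)).
(2) `CG k (μ m) (P s)` for `m = x + y φ`: `norm (μ m) = norm μ (x² + x y - y²)`, `m² = x² + 2 φ x y + φ² y²`: `CG` says `k³ ∣ k'² (r5 P s - ..) - ..`, subtract `x²` times `ha`, `x y` times `hb`, `y²` times `hc`: `k³ ∣ k'² r5 P (s - a(x, y))`, i.e. (units, (F1)) `q³ ∣ s - a(x,y)`.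
(3) the three expressions of `RM k (c g) (c norm g) a` are `c g` times those of `RQ k g c a` (`norm (c g) = c² g g'`), and `c g` is coprime to `k`. -/
def GRM_stmt : Prop :=
  (∀ (k μ : OO) (P : ℤ), IsCoprime k (star k) → Nat.Coprime k.norm.natAbs 10 → Nat.Coprime P.natAbs k.norm.natAbs →
    (∃ a : ℤ × ℤ × ℤ, RM k μ P a) ∧ ∀ a : ℤ × ℤ × ℤ, RM k μ P a → ∀ x y s : ℤ,
      (CG k (μ * ⟨x, y⟩) (P * s) ↔ ((k.norm.natAbs ^ 3 : ℕ) : ℤ) ∣ s - (a.1 * x ^ 2 + a.2.1 * x * y + a.2.2 * y ^ 2))) ∧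
  ∀ (k g : OO) (c : ℤ) (a : ℤ × ℤ × ℤ), IsCoprime k ((c : OO) * g) → RM k ((c : OO) * g) (c * g.norm) a →
    RQ k g c a.1 a.2.1 a.2.2

/-- **GEB** (short-medium; from GRM).  Every `(x, y)` gives tuples in the class modulo `E`.
Proof. `(A, B, C)` of GRM for `μ = 1`, `P = 1`. Chinese remainder theorem (`q³`, `E` coprime): integers `ε₁ ≡ 1 (q³)`, `≡ 0 (E)`, `ε₂ ≡ 0 (q³)`, `≡ 1 (E)`. With `M = M₀ + E (x + y φ) = m + n φ`: `z₁ = ε₁ (A m² + B m n + C n²) + ε₂ s₀`: modulo `q³` it is `Q(M)`, modulo `E` it is `s₀`.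
`a = ε₁ (A, B, C)`; expand `m = m₀ + E x`, `n = n₀ + E y`: the coefficient of `x²` in `z₁ / (E q³)` is `ε₁ A E² / (E q³) = (E / q³) a₀`. -/
def GEB_stmt : Prop :=
  ∀ (E : ℕ) (k M₀ : OO) (s₀ : ℤ), 1 ≤ E → IsCoprime k (star k) → Nat.Coprime k.norm.natAbs (10 * E) →
    ∃ a : ℤ × ℤ × ℤ, RM k 1 1 a ∧ ∃ c₃ c₄ c₅ : ℝ, ∀ x y : ℤ, ∃ z₁ : ℤ,
      (z₁ : ℝ) / ((E : ℝ) * (k.norm.natAbs : ℝ) ^ 3) = (E : ℝ) / (k.norm.natAbs : ℝ) ^ 3 *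
        (a.1 * x ^ 2 + a.2.1 * x * y + a.2.2 * y ^ 2) + c₃ * x + c₄ * y + c₅ ∧
      ∀ z' : ℤ, CG k (M₀ + (E : OO) * ⟨x, y⟩) (z₁ + E * (k.norm.natAbs : ℤ) ^ 3 * z') ∧
        (E : ℤ) ∣ z₁ + E * (k.norm.natAbs : ℤ) ^ 3 * z' - s₀

/-- **GEA** (short-medium; from GRM).  The tuples of a family as one congruence.
Proof. `μ` is a unit modulo `E` (`μ μ' = norm μ`), so `μ M₂ ≡ M₀` means `M₂ ≡ M₁` modulo `E` for one `M₁` with coordinates in `[0, E)` (if there is no such `M₂` nothing is to be proved, but `M₁` still exists), and `s₂ ≡ s₁` modulo `E`. GRM: `q³ ∣ s₂ - a(M₂)` (write `M₂ = m + n φ`). CRT as in GEB: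
`s₂ ≡ ε₁ a(M₂) + ε₂ s₁` modulo `E q³`; take `ε₁ a` for `a`, expand `M₂ = M₁ + E (x + y φ)` and divide by `E q³`. -/
def GEA_stmt : Prop :=
  ∀ (E : ℕ) (P : ℤ) (k μ M₀ : OO) (s₀ : ℤ), 1 ≤ E → IsCoprime k (star k) → Nat.Coprime k.norm.natAbs (10 * E) →
    Nat.Coprime P.natAbs (k.norm.natAbs * E) → Nat.Coprime μ.norm.natAbs E →
    ∃ a : ℤ × ℤ × ℤ, RM k μ P a ∧ ∃ (M₁ : OO) (c₃ c₄ c₅ : ℝ), 0 ≤ M₁.re ∧ M₁.re < E ∧ 0 ≤ M₁.im ∧ M₁.im < E ∧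
      ∀ (M₂ : OO) (s₂ : ℤ), CG k (μ * M₂) (P * s₂) → (E : OO) ∣ μ * M₂ - M₀ → (E : ℤ) ∣ P * s₂ - s₀ →
        ∃ x y z : ℤ, M₂ = M₁ + (E : OO) * ⟨x, y⟩ ∧
          (s₂ : ℝ) / ((E : ℝ) * (k.norm.natAbs : ℝ) ^ 3) = (E : ℝ) / (k.norm.natAbs : ℝ) ^ 3 *
            (a.1 * x ^ 2 + a.2.1 * x * y + a.2.2 * y ^ 2) + c₃ * x + c₄ * y + c₅ + z

/-- **GPU** (short-medium; from GEA, WFJ, WWY; model: the proof of EPU (T6), find it with grep).  Upper bound for one `k`.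
Proof. `t ↦ (x, y)` (GEA) is injective on `F` (`s₂` is determined modulo `E q³ ≥ 4 V`); `|E x| ≤ |M₂.re| + E ≤ E B`: `|x|, |y| ≤ B`. `x_i` = the right hand side minus `(z₀ + V/2)/(E q³)`: `nd ≤ V/(2 E q³) ≤ 1/(8 T)`. WFJ with the weights `tw B x tw B y` on `[-2B, 2B]²` (`≥ 1` on the image, sum at most `81 B²`);
the exponential sums are `TS B B` with the coefficients `(h E a₀/q³, ..)` up to a factor of absolute value `1`: WWY. -/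
def GPU_stmt : Prop :=
  ∃ C : ℝ, 1 ≤ C ∧ ∀ (E : ℕ) (P : ℤ) (k μ M₀ : OO) (s₀ : ℤ), 1 ≤ E → IsCoprime k (star k) →
    Nat.Coprime k.norm.natAbs (10 * E) → Nat.Coprime P.natAbs (k.norm.natAbs * E) → Nat.Coprime μ.norm.natAbs E →
    ∃ a : ℤ × ℤ × ℤ, RM k μ P a ∧ ∀ (B T : ℕ) (z₀ V : ℝ) (F : Finset (OO × ℤ)), 1 ≤ B → 1 ≤ T → 0 < V →
      4 * T * V ≤ (E : ℝ) * (k.norm.natAbs : ℝ) ^ 3 →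
      (∀ t ∈ F, CG k (μ * t.1) (P * t.2) ∧ (E : OO) ∣ μ * t.1 - M₀ ∧ (E : ℤ) ∣ P * t.2 - s₀ ∧
        |(t.1.re : ℝ)| + E ≤ E * B ∧ |(t.1.im : ℝ)| + E ≤ E * B ∧ z₀ ≤ t.2 ∧ (t.2 : ℝ) ≤ z₀ + V) →
      (F.card : ℝ) ≤ C / T * ((B : ℝ) ^ 2 + B * NK B T E k a)

/-- **GPL** (medium; from GEB, EMI, WWY; model: the proof of EPL (T6)).  Lower bound for one `k`.
Proof. Index set `(x, y) ∈ [-2B, 2B]²`, weights `tw B x tw B y` (`0 ≤ .. ≤ 9`, sum `≥ B²`), `x_i = φ(x, y) - (z₀ + V/2)/(E q³)` (`φ` = the right hand side of GEB), `l = V/(2 E q³)` (`l ≤ 1/2`, `T l ≥ 5`). If `nd ≤ l/2` there is `z'` with `|z₁ + E q³ z' - z₀ - V/2| ≤ V/4`: a pair `(M, s)` of `F`,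
`M = M₀ + E (x + y φ)`, `|M.re| ≤ E + 2 B E`; injective. So the sum over the arc is at most `9 #F`. EMI, WWY. -/
def GPL_stmt : Prop :=
  ∃ C : ℝ, 1 ≤ C ∧ ∀ (E : ℕ) (k M₀ : OO) (s₀ : ℤ), 1 ≤ E → IsCoprime k (star k) → Nat.Coprime k.norm.natAbs (10 * E) →
    0 ≤ M₀.re → M₀.re < E → 0 ≤ M₀.im → M₀.im < E →
    ∃ a : ℤ × ℤ × ℤ, RM k 1 1 a ∧ ∀ (B T : ℕ) (z₀ V : ℝ) (F : Finset (OO × ℤ)), 1 ≤ B → 1 ≤ T → 0 < V →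
      10 * ((E : ℝ) * (k.norm.natAbs : ℝ) ^ 3) ≤ T * V → V ≤ (E : ℝ) * (k.norm.natAbs : ℝ) ^ 3 →
      (∀ (M : OO) (s : ℤ), CG k M s → (E : OO) ∣ M - M₀ → (E : ℤ) ∣ s - s₀ → |(M.re : ℝ)| ≤ E * (2 * B + 1) →
        |(M.im : ℝ)| ≤ E * (2 * B + 1) → z₀ < s → (s : ℝ) ≤ z₀ + V → (M, s) ∈ F) →
      (B : ℝ) ^ 2 / (C * T) ≤ F.card + C / T * (B * NK B T E k a)

/-! ## 2. The set of `k` -/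

/-- **GKT** (medium, algebra and real inequalities).  Properties of the `k`.
Proof. `k = x + y φ`, `norm k = x² + x y - y² ∈ (1.03 X², 1.08 X²)` (monotone: between the values at `(0.98, 0.08)`, `(1, 0.085)`), `Q = ⌊X²⌋`, `2 Q ≥ 2 X² - 2 ≥ 1.08 X²`. `va k = x + 1.618.. y ≤ 1.14 X`, `0 < vb k ≤ 0.96 X`, `√Q ≥ 0.9 X`.
`norm k ≡ 1` modulo `e`, so coprime to `e` (`10 ∣ e`). `IsCoprime k k'`: the ideal contains `q` and `(k - k') r5 = 5 y`; `gcd(q, 5 y) = 1` (`5 ∤ q`; a prime `p ∣ q, y` divides `x²`). Associates: `k₁ = u k`, `u` a unit, `|va u| |vb u| = 1`, and `va k₁/va k, vb k₁/vb k ∈ (0.96, 1.04)`, so `va u, vb u ∈ (0.96, 1.04)`;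
`u = a + b φ`: `√5 b = va u - vb u`, so `b = 0`, `a = 1`. -/
def GKT_stmt : Prop :=
  ∀ (X : ℝ) (e : ℕ), 100 ≤ X → 10 ∣ e → (∀ k ∈ KT X e, KG ⌊X ^ 2⌋₊ k ∧ Nat.Coprime k.norm.natAbs e ∧ 0 < k.norm ∧
      X ^ 2 ≤ (k.norm.natAbs : ℝ) ∧ (k.norm.natAbs : ℝ) ≤ 108 / 100 * X ^ 2) ∧
    ∀ k ∈ KT X e, ∀ k₁ ∈ KT X e, k ∣ k₁ → k₁ ∣ k → k = k₁

open Classical in
/-- **GKN** (short-medium; from EPC (T6)).  The number of the `k`.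
Proof. Lower bound: EPC with `X₁ = 2 X`, `X₂ = X/2` (`49/100 · 2X = 98/100 X`, `16/100 · X/2 = 8/100 X`) for the set of pairs `(x, y)` of `KT`. Upper bound: for each `y` (at most `0.005 X/e + 1 ≤ 2 X/e` values) the `x ≡ 1 (e)` with `l ∣ x² + x y - y²` are in at most two classes modulo `l`
(`l ≠ 2`: `l` odd, two solutions differ by a root; or: a polynomial of degree 2 over the field `ZMod l`), so in at most two classes modulo `e l`: at most `2 (X/(e l) + 1) ≤ 4 X/(e l)` values of `x`. -/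
def GKN_stmt : Prop :=
  ∃ (c C : ℝ), 0 < c ∧ 1 ≤ C ∧ ∀ e : ℕ, 1 ≤ e → ∃ X₀ : ℝ, ∀ X : ℝ, X₀ ≤ X →
    c * X ^ 2 / (e : ℝ) ^ 2 ≤ ((KT X e).card : ℝ) ∧ ((KT X e).card : ℝ) ≤ C * X ^ 2 / (e : ℝ) ^ 2 ∧
    ∀ l : ℕ, l.Prime → Nat.Coprime l e → (e : ℝ) * l ≤ X →
      (((KT X e).filter (fun k => (l : ℤ) ∣ k.norm)).card : ℝ) ≤ C * X ^ 2 / ((e : ℝ) ^ 2 * l)

/-! ## 3. Sizes -/

/-- **GSL** (medium, numerical).  Sizes for the lower bound.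
Proof. `X² = √N/ρ`, `S = SZ N X = (500)^(1/3) N ρ^(-4/3)`, so `X⁴/S = ρ^(-2/3)/7.93..`, `X⁴ ≤ S`. `B = ⌊√S/(300 E)⌋` (`E (2 B + 1) ≤ √S/100`; `√S ≥ 10^4 E` for `N` large), `V = S/2`, `T = ⌈26 E X⁶/S⌉` (`10 E (1.08 X²)³ ≤ 12.6 E X⁶ ≤ T S/2`). Main: `X² B²/(e² T) ≥ c X² (S/E²)/(P² E X⁶/S) = c' S²/(P⁵ X⁴)` and `S²/X⁴ = 62.9.. ρ^(-2/3) N`.
`R = C (E T B/X³ + X³/B) ≤ C(E) X³/√S` (`Q = ⌊X²⌋`, `Q^(3/2)` between `X³/2` and `X³`), `R² ≤ C(E) T`. Error: `(B/T)(T Q + R^(3/2) T^(5/4) + R^(3/2) Q T^(1/4)) ≤ C(E) B (Q + T) ≤ C(E) √S X²` (`T ≤ C(E) X⁶/S ≤ C(E) X²`) `= C(E) ρ^(-5/3) N`. -/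
def GSL_stmt : Prop :=
  ∃ c : ℝ, 0 < c ∧ ∀ P : ℕ, 1 ≤ P → ∃ C : ℝ, 1 ≤ C ∧ ∀ ρ : ℝ, 1 ≤ ρ → ∀ X₀ : ℝ, ∃ N₀ : ℝ, ∀ N X : ℝ, N₀ ≤ N → 0 < X →
    X ^ 2 = √N / ρ → 1 ≤ N ∧ X₀ ≤ X ∧ ∃ (B T : ℕ) (R : ℝ), 1 ≤ B ∧ 1 ≤ T ∧
      ((16 * 5 ^ 6 * P : ℕ) : ℝ) * (2 * B + 1) ≤ √(SZ N X) / 100 ∧
      10 * (((16 * 5 ^ 6 * P : ℕ) : ℝ) * (108 / 100 * X ^ 2) ^ 3) ≤ T * (SZ N X / 2) ∧
      SZ N X ≤ (X ^ 2) ^ 3 ∧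
      ((16 * 5 ^ 6 * P : ℕ) : ℝ) * T * B / (⌊X ^ 2⌋₊ : ℝ) ^ (3 / 2 : ℝ) + (⌊X ^ 2⌋₊ : ℝ) ^ (3 / 2 : ℝ) / B ≤ R ∧
      c / (P : ℝ) ^ 5 * (ρ ^ (-(2 / 3) : ℝ) * N) ≤ X ^ 2 / ((10 * P : ℕ) : ℝ) ^ 2 * ((B : ℝ) ^ 2 / T) ∧
      (B : ℝ) / T * (T * (⌊X ^ 2⌋₊ : ℝ) + R ^ (3 / 2 : ℝ) * ((T : ℝ) ^ (5 / 4 : ℝ) + (⌊X ^ 2⌋₊ : ℝ) * (T : ℝ) ^ (1 / 4 : ℝ))) ≤
        C / ρ * (ρ ^ (-(2 / 3) : ℝ) * N)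

/-- **GSU** (medium, numerical).  Sizes for the upper bounds: (I) `c = 1`, `G = √l`; (II) `c = l`, `G = 1`; (III) `s` free.
Proof. (I) `B = ⌈7 √S/(100 E √l)⌉ + 2`, `T = ⌊l E X⁶/(2 S)⌋`, `V = S/(2 l)`: `4 T V ≤ E X⁶`; main `B²/T ≤ C (S/(E² l))/(l E X⁶/S)`; `R ≤ C(E) l X³/√S`, `R^(3/2) ≤ C(E) l^(3/2) (X⁶/S)^(3/4)`, `T ≍_E l X⁶/S`: `(B/T)(T Q + ..) ≤ C(E) (√S/√l)(X² + l^(3/2) (l^(1/4) X⁶/S + l^(-3/4) X²))`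
`≤ C(E) √S X² (l^(1/4) + l^(5/4) X⁴/S)`, `X⁴/S ≤ ρ^(-2/3)`. (II) `B = ⌈7 √S/(100 E l)⌉ + 2`, the same `T, V`; `B²/T ≤ C S²/(E³ l³ X⁶)`; `E T l B ≤ C(E) l X⁶/√S`, so the same `R`; `(B/T)(..) ≤ C(E) (√S/l)(X² + l^(3/2)(l^(1/4) X⁶/S + l^(-3/4) X²))`: smaller.
(III) `B` as in (I), `T = ⌊E X⁶/(2 S)⌋`, `V = S/2`; `R ≤ C(E) l X³/√S`; `(B/T)(T Q/l + R^(3/2)(T^(5/4) + Q T^(1/4)/l)) ≤ C(E) (√S/√l)(X²/l + l^(3/2)(X⁶/S + X²/l)) ≤ C(E) √S X² (1 + l X⁴/S)`; main `(X²/l) B²/T ≤ C X² (S/(E² l²))/(E X⁶/S)`. In all cases `√S/√l, √S/l, T` are as large as one wants for `N ≥ N₀(ρ, P)`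
(`l ≤ ρ`). -/
def GSU_stmt : Prop :=
  ∃ C₀ : ℝ, 1 ≤ C₀ ∧ ∀ P : ℕ, 1 ≤ P → ∃ C : ℝ, 1 ≤ C ∧ ∀ ρ : ℝ, 1 ≤ ρ → ∀ X₀ : ℝ, ∃ N₀ : ℝ, ∀ N X : ℝ, N₀ ≤ N → 0 < X →
    X ^ 2 = √N / ρ → 1 ≤ N ∧ X₀ ≤ X ∧ ∀ l : ℕ, 1 ≤ l → (l : ℝ) ≤ ρ →
    (∃ (B T : ℕ) (R : ℝ), 1 ≤ B ∧ 1 ≤ T ∧
      7 * √(SZ N X) / (100 * √(l : ℝ)) + ((16 * 5 ^ 6 * P : ℕ) : ℝ) ≤ ((16 * 5 ^ 6 * P : ℕ) : ℝ) * B ∧
      4 * T * (SZ N X / (2 * l)) ≤ ((16 * 5 ^ 6 * P : ℕ) : ℝ) * (X ^ 2) ^ 3 ∧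
      ((16 * 5 ^ 6 * P : ℕ) : ℝ) * T * (2 * √(l : ℝ)) * B / (⌊X ^ 2⌋₊ : ℝ) ^ (3 / 2 : ℝ) + (2 * √(l : ℝ)) * (⌊X ^ 2⌋₊ : ℝ) ^ (3 / 2 : ℝ) / B ≤ R ∧
      X ^ 2 / ((10 * P : ℕ) : ℝ) ^ 2 * ((B : ℝ) ^ 2 / T) ≤ C₀ / ((l : ℝ) ^ 2 * (P : ℝ) ^ 5) * (ρ ^ (-(2 / 3) : ℝ) * N) ∧
      (B : ℝ) / T * (T * (⌊X ^ 2⌋₊ : ℝ) + R ^ (3 / 2 : ℝ) * ((T : ℝ) ^ (5 / 4 : ℝ) + (⌊X ^ 2⌋₊ : ℝ) * (T : ℝ) ^ (1 / 4 : ℝ))) ≤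
        C / ρ * ((l : ℝ) ^ (1 / 4 : ℝ) * (1 + l * ρ ^ (-(2 / 3) : ℝ))) * (ρ ^ (-(2 / 3) : ℝ) * N)) ∧
    (∃ (B T : ℕ) (R : ℝ), 1 ≤ B ∧ 1 ≤ T ∧
      7 * √(SZ N X) / (100 * l) + ((16 * 5 ^ 6 * P : ℕ) : ℝ) ≤ ((16 * 5 ^ 6 * P : ℕ) : ℝ) * B ∧
      4 * T * (SZ N X / (2 * l)) ≤ ((16 * 5 ^ 6 * P : ℕ) : ℝ) * (X ^ 2) ^ 3 ∧
      ((16 * 5 ^ 6 * P : ℕ) : ℝ) * T * l * B / (⌊X ^ 2⌋₊ : ℝ) ^ (3 / 2 : ℝ) + (⌊X ^ 2⌋₊ : ℝ) ^ (3 / 2 : ℝ) / B ≤ R ∧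
      X ^ 2 / ((10 * P : ℕ) : ℝ) ^ 2 * ((B : ℝ) ^ 2 / T) ≤ C₀ / ((l : ℝ) ^ 2 * (P : ℝ) ^ 5) * (ρ ^ (-(2 / 3) : ℝ) * N) ∧
      (B : ℝ) / T * (T * (⌊X ^ 2⌋₊ : ℝ) + R ^ (3 / 2 : ℝ) * ((T : ℝ) ^ (5 / 4 : ℝ) + (⌊X ^ 2⌋₊ : ℝ) * (T : ℝ) ^ (1 / 4 : ℝ))) ≤
        C / ρ * ((l : ℝ) ^ (1 / 4 : ℝ) * (1 + l * ρ ^ (-(2 / 3) : ℝ))) * (ρ ^ (-(2 / 3) : ℝ) * N)) ∧
    (∃ (B T : ℕ) (R : ℝ), 1 ≤ B ∧ 1 ≤ T ∧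
      7 * √(SZ N X) / (100 * √(l : ℝ)) + ((16 * 5 ^ 6 * P : ℕ) : ℝ) ≤ ((16 * 5 ^ 6 * P : ℕ) : ℝ) * B ∧
      4 * T * (SZ N X / 2) ≤ ((16 * 5 ^ 6 * P : ℕ) : ℝ) * (X ^ 2) ^ 3 ∧
      (((16 * 5 ^ 6 * P : ℕ) : ℝ) * T * l * √(l : ℝ) * B + √(l : ℝ) * (⌊X ^ 2⌋₊ : ℝ) ^ 3 / B) / (⌊X ^ 2⌋₊ : ℝ) ^ (3 / 2 : ℝ) ≤ R ∧
      X ^ 2 / (((10 * P : ℕ) : ℝ) ^ 2 * l) * ((B : ℝ) ^ 2 / T) ≤ C₀ / ((l : ℝ) ^ 2 * (P : ℝ) ^ 5) * (ρ ^ (-(2 / 3) : ℝ) * N) ∧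
      (B : ℝ) / T * (T * (⌊X ^ 2⌋₊ : ℝ) / l + R ^ (3 / 2 : ℝ) * ((T : ℝ) ^ (5 / 4 : ℝ) + (⌊X ^ 2⌋₊ : ℝ) * (T : ℝ) ^ (1 / 4 : ℝ) / l)) ≤
        C / ρ * ((l : ℝ) ^ (1 / 4 : ℝ) * (1 + l * ρ ^ (-(2 / 3) : ℝ))) * (ρ ^ (-(2 / 3) : ℝ) * N))

/-! ## 4. Sums over `k` -/

/-- **GLB** (medium; from NKA, GRM, GPL, GKT, GKN, GSL).  Lower bound for the tuples.
Proof. `W = KT X (10 P)`. For `k ∈ W`: GPL with `z₀ = V = S/2` (`V ≤ S ≤ X⁶ ≤ E q³`; `q` is coprime to `10 E`), `F_k = {(M, s) : (k, M, s) ∈ F}`. Sum: `#F ≥ #W B²/(C T) - (C/T) B ∑ NK`; `#W ≥ c X²/(10 P)²` (GKN), NKA with `c = 1`, `g = 1`, `G = 1` (`va 1 = 1`; GRM (3): `RM k 1 1 a` gives `RQ k 1 1 a`), GSL. -/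
def GLB_stmt : Prop :=
  ∃ c : ℝ, 0 < c ∧ ∀ P : ℕ, 1 ≤ P → ∃ C : ℝ, 1 ≤ C ∧ ∀ ρ : ℝ, 1 ≤ ρ → ∃ N₀ : ℝ, ∀ N X : ℝ, N₀ ≤ N → 0 < X →
    X ^ 2 = √N / ρ → ∀ (M₀ : OO → OO) (s₀ : OO → ℤ), (∀ k : OO, 0 ≤ (M₀ k).re ∧ (M₀ k).re < 16 * 5 ^ 6 * P ∧
      0 ≤ (M₀ k).im ∧ (M₀ k).im < 16 * 5 ^ 6 * P) → ∀ F : Finset (OO × OO × ℤ), (∀ t, TP P N X M₀ s₀ t → t ∈ F) →
    (c / (P : ℝ) ^ 5 - C / ρ) * (ρ ^ (-(2 / 3) : ℝ) * N) ≤ (F.card : ℝ)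

/-- **GUA** (medium to long; from NKA, GRM, GPU, GKT, GKN, GSU, CTH).  Bad tuples, `l ∤ norm k`.
Proof. `l ∣ norm M`, `l ∣ s`, `l ∤ q`. (inert, `l ≡ ± 2` modulo `5`) CTH (3): `M = l M₂`, `s = l s₂`, `μ = l`, `P = l`. (split) CTH: `g` with `norm g = ± l` and `g ∣ M`, where `g` is one of two elements (`l ∣ norm M = M M'`; the two roots `r`, `1 - r`), `M = g M₂`, `s = (norm g) s₂`, `μ = g`, `P = norm g`.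
GPU for each `k ∈ KT X (10 P)` with `l ∤ q` and the set of the `(M₂, s₂)` (`M₀ k, s₀ k` are the classes). Sizes: `|va M|, |vb M| ≤ 2.62 √S/100`, `g.re², g.im² ≤ l`, so `|va g|, |vb g| ≤ 2.62 √l` and `≥ √l/2.62`: `|va M₂|, |vb M₂| ≤ 6.9 √S/(100 √l)`, the coordinates of `M₂` are at most this
(`im = (va - vb)/√5`, `re = ((φ - 1) va + φ vb)/√5`). `s₂ ∈ [z₀, z₀ + V]` with `V = S/(2 l)` and `z₀ = S/(2 l)` (`norm g > 0`) or `z₀ = - S/l` (`norm g < 0`).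
Sum over `k`: `(C/T)(#W B² + B ∑ NK)`, `#W ≤ C X²/(10 P)²`, NKA with (`c = 1`, `G = 2 √l`) or (`c = l`, `g = 1`, `G = 1`; GRM (3)), GSU (I), (II). -/
def GUA_stmt : Prop :=
  ∃ C₀ : ℝ, 1 ≤ C₀ ∧ ∀ P : ℕ, 1 ≤ P → Nat.Coprime P 10 → ∃ C : ℝ, 1 ≤ C ∧ ∀ ρ : ℝ, 1 ≤ ρ → ∃ N₀ : ℝ, ∀ N X : ℝ, N₀ ≤ N → 0 < X →
    X ^ 2 = √N / ρ → ∀ l : ℕ, l.Prime → Nat.Coprime l (10 * P) → (l : ℝ) ≤ ρ → ∀ (M₀ : OO → OO) (s₀ : OO → ℤ),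
    ∀ F : Finset (OO × OO × ℤ), (∀ t ∈ F, TP P N X M₀ s₀ t ∧ (l : ℤ) ∣ t.2.1.norm ∧ (l : ℤ) ∣ t.2.2 ∧ ¬ (l : ℤ) ∣ t.1.norm) →
    (F.card : ℝ) ≤ (C₀ / ((l : ℝ) ^ 2 * (P : ℝ) ^ 5) + C / ρ * ((l : ℝ) ^ (1 / 4 : ℝ) * (1 + l * ρ ^ (-(2 / 3) : ℝ)))) *
      (ρ ^ (-(2 / 3) : ℝ) * N)

/-- **GUB** (medium; from NKB, GPU, GKT, GKN, GSU, CTH).  Bad tuples, `l ∣ norm k`.
Proof. `l ∣ norm k` so `l ≡ ± 1` modulo `5` (`l ∣ x² + x y - y²`, `l ∤ y` as `gcd(x, y) = 1`: `5` is a square; or CTH (3): inert would give `l ∣ k`), and `g ∣ M` for one of two `g` with `norm g = ± l` as in GUA. `M = g M₂`, `s` free: `μ = g`, `P = 1`, GPU with `V = S/2`. `#W ≤ C X²/((10 P)² l)` (GKN), NKB, GSU (III). -/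
def GUB_stmt : Prop :=
  ∃ C₀ : ℝ, 1 ≤ C₀ ∧ ∀ P : ℕ, 1 ≤ P → Nat.Coprime P 10 → ∃ C : ℝ, 1 ≤ C ∧ ∀ ρ : ℝ, 1 ≤ ρ → ∃ N₀ : ℝ, ∀ N X : ℝ, N₀ ≤ N → 0 < X →
    X ^ 2 = √N / ρ → ∀ l : ℕ, l.Prime → Nat.Coprime l (10 * P) → (l : ℝ) ≤ ρ → ∀ (M₀ : OO → OO) (s₀ : OO → ℤ),
    ∀ F : Finset (OO × OO × ℤ), (∀ t ∈ F, TP P N X M₀ s₀ t ∧ (l : ℤ) ∣ t.2.1.norm ∧ (l : ℤ) ∣ t.1.norm) →
    (F.card : ℝ) ≤ (C₀ / ((l : ℝ) ^ 2 * (P : ℝ) ^ 5) + C / ρ * ((l : ℝ) ^ (1 / 4 : ℝ) * (1 + l * ρ ^ (-(2 / 3) : ℝ)))) *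
      (ρ ^ (-(2 / 3) : ℝ) * N)

/-- **GGD** (medium; from GLB, GUA, GUB; model EGD (T6)).  Many good tuples.
Proof. `w₀ ≥ 16 C₀/c` (`C₀` = the sum of those of GUA, GUB; both absolute), `P := ∏` of the primes `≤ w₀` except `2, 5`. The set of all tuples is finite (`s`, `M`, `k` bounded). Remove the tuples bad at a prime `w₀ < l ≤ ρ^(7/10)`, `l ∤ 10 P`: `∑_{l > w₀} 1/l² ≤ 1/w₀ · 2`; `∑_{l ≤ Y} l^(1/4) (1 + l ρ^(-2/3)) ≤ 2 (Y^(5/4) + Y^(9/4) ρ^(-2/3))` with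
`Y = ρ^(7/10)`: `ρ^(0.875)` and `ρ^(1.575 - 0.667) ≤ ρ^(0.91)`. So at least `(c/P⁵ - c/(4 P⁵) - C(P) (1/ρ + 4 ρ^(-0.09))) ρ^(-2/3) N` remain; `ρ ≥ ρ₀(P)`. `X = √(√N/ρ)`. -/
def GGD_stmt : Prop :=
  ∃ (P : ℕ) (c ρ₀ : ℝ), 1 ≤ P ∧ Nat.Coprime P 10 ∧ 0 < c ∧ 1 ≤ ρ₀ ∧ ∀ ρ : ℝ, ρ₀ ≤ ρ → ∃ N₀ : ℝ, ∀ N X : ℝ, N₀ ≤ N → 0 < X →
    X ^ 2 = √N / ρ → ∀ (M₀ : OO → OO) (s₀ : OO → ℤ), (∀ k : OO, 0 ≤ (M₀ k).re ∧ (M₀ k).re < 16 * 5 ^ 6 * P ∧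
      0 ≤ (M₀ k).im ∧ (M₀ k).im < 16 * 5 ^ 6 * P) → ∃ F : Finset (OO × OO × ℤ),
      (∀ t ∈ F, TP P N X M₀ s₀ t ∧ ∀ l : ℕ, l.Prime → (l : ℝ) ≤ ρ ^ (7 / 10 : ℝ) → ¬ l ∣ 10 * P → ¬ BadT l t) ∧
      c * (ρ ^ (-(2 / 3) : ℝ) * N) ≤ (F.card : ℝ)

/-! ## 5. Points -/

/-- **GPA** (medium; algebra; copy of the proof of CPA, `Pool/Agent/helper27/RF/CPA.lean`, with `IsCoprime k (star k)` instead of `q` prime; (F1), (F2)).  The point of a tuple.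
Proof. The docstring of CPA; there `q` prime is only used for `gcd(k, k') = 1` and for the coprimality of `k` and `n`, which is dropped. New: (5) `k ∣ M² - n' k'²`: conjugate of the last step of `n`: `CG` with `r5 s - N(M) = 2 φ n' k²` says `k³ ∣ 2 φ k² (k'² n' - M²)`.
(l) for a prime `l ∤ 10`: `l ∣ n` gives `l ∣ n'`, `l ∣ r5 s - N(M)` and conjugating `l ∣ r5 s + N(M)`, so `l ∣ N(M)` and `l ∣ s`. If `l ∣ norm k` and `l ∣ norm n`: `l` is not inert (else `l ∣ k`), let `π` be a prime with `π ∣ k`, `π π' = ± l` (CTH; `l ∣ k k'`; if `π' ∣ k` take `π'`); `l ∣ n n'`: if `π ∣ n'` then (5) gives `π ∣ M`; if `π ∣ n`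
then `-(r5 s + N(M)) = 2 φ' n k'²` and `r5 s - N(M) = 2 φ n' k²` give `π ∣ 2 N(M)`; so `l ∣ N(M)` in both cases (`π ∣ N(M)`, an integer). -/
def GPA_stmt : Prop :=
  ∀ (E P : ℕ) (k M₀ M : OO) (s₀ s : ℤ), E = 16 * 5 ^ 6 * P → Nat.Coprime P 10 → 1 ≤ P → k ≠ 0 → IsCoprime k (star k) →
    Nat.Coprime k.norm.natAbs E → Cls P k M₀ s₀ → (E : OO) ∣ M - M₀ → (E : ℤ) ∣ s - s₀ → CG k M s →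
    ∃ (n X : OO) (D : ℤ), 2 * ph * star n * k ^ 2 = r5 * (s : OO) - (M.norm : OO) ∧
      2 * star k * X = -(n * M + ph * star n * star M) ∧
      X ^ 2 + w2 * (D : OO) * (25 * k) ^ 2 = n ^ 2 * star n ∧
      n * M = ph * star X * k - X * star k ∧ k ∣ M ^ 2 - star n * star k ^ 2 ∧
      (25 : OO) ∣ X - 1 ∧ (25 : OO) ∣ n - 1 ∧ IsCoprime 2 n ∧ D % 20 = 17 ∧ (P : OO) ∣ n - 1 ∧
      ∀ l : ℕ, l.Prime → l ≠ 2 → l ≠ 5 → ((l : OO) ∣ n → (l : ℤ) ∣ M.norm ∧ (l : ℤ) ∣ s) ∧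
        ((l : ℤ) ∣ k.norm → (l : ℤ) ∣ n.norm → (l : ℤ) ∣ M.norm)

/-- **GFI** (medium; from GGD, GKT, CLO, GPA, CRG).  Assembly of block C'.
Proof. `P, c, ρ₀` of GGD, `E = 16 · 5^6 · P`; `ρ₀` large also for the last size. `X = √(√N/ρ)`, CLO for every `k` gives `M₀ k, s₀ k` (`Cls P k (M₀ k) (s₀ k)`, coordinates in `[0, E)`). For `t = (k, M, s) ∈ F`: `norm k` is coprime to `10 P` (GKT), so to `E`; GPA gives `n, X, D`; the point is `⟨k, X, n, 25 * M, D⟩`; `e5`: `25 k ∣ (25 M)² - n' (25 k')²`.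
CRG (`va k² ≤ 4 q`: `|va k| ≤ 2 √Q`, `Q ≤ q`): `500 q⁴ D ≤ s³ ≤ S³ = 500 N X⁸` (`SZ`) and `q ≥ X²`: `D ≤ N`; `2000 q⁴ D ≥ s³ ≥ S³/8`, `q⁴ ≤ 1.3605 X⁸`: `D ≥ 62.5 N/2721 ≥ N/44 ≥ √N`; `q² |norm n| ≤ 2 s²`: `|norm n| ≤ 2 S²/X⁴ ≤ 126 ρ^(-2/3) N ≤ D` for `ρ ≥ ρ₀`.
Primes `l ≤ ρ^(7/10)`: `l ∤ 10 P`: GPA (l) and `¬ BadT l t`; `l = 2`: `IsCoprime 2 n` and `norm k` is odd; `l = 5`: `25 ∣ n - 1` and `5 ∤ norm k`; `l ∣ P`: `P ∣ n - 1` and `norm k` is coprime to `P`. The map `t ↦` point is injective (`k`, `25 M`; `r5 s = 2 φ n' k² + N(M)`). -/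
def GFI_stmt : Prop := PTS3_stmt

end Pool.Agent.RF
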