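import Pool.Agent.helper95.RF.Glue
import Pool.Agent.helper95.RF.CRG
import Pool.Agent.helper29.RF.CTH
import Pool.Agent.helper48.RF.CLO
import Pool.Agent.helper29.T6.EPC
import Pool.Agent.helper35.T6.WFJ
import Pool.Agent.helper87.T6.WWY
import Pool.Agent.helper71.T6.EMI
import Pool.Agent.helper23.RG.GRM
import Pool.Agent.helper92.RG.GEB
import Pool.Agent.helper23.RG.GEA
import Pool.Agent.helper72.RG.GPU
import Pool.Agent.helper29.RG.GPL
import Pool.Agent.helper8.RG.GKT
import Pool.Agent.helper73.RG.GKN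
import Pool.Agent.helper89.RG.GSL
import Pool.Agent.helper34.RG.GSU
import Pool.Agent.helper91.RG.GLB
import Pool.Agent.helper27.RG.GUA
import Pool.Agent.helper78.RG.GUB
import Pool.Agent.helper26.RG.GGD
import Pool.Agent.helper51.RG.GFI
import Pool.Agent.helper38.RG.GPA

set_option autoImplicit false

/-! # RF stage 2, block C': assembly -/

namespace Pool.Agent.RF

theorem GEB_all : GEB_stmt := GEB GRM
theorem GEA_all : GEA_stmt := GEA GRM
theorem GPU_all : GPU_stmt := GPU GEA_all T6.WFJ T6.WWY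
theorem GPL_all : GPL_stmt := GPL GEB_all T6.EMI T6.WWY
theorem GKN_all : GKN_stmt := GKN T6.EPC
theorem GLB_of (hA : NKA_stmt) : GLB_stmt := GLB hA GRM GPL_all GKT GKN_all GSL
theorem GUA_of (hA : NKA_stmt) : GUA_stmt := GUA hA GRM GPU_all GKT GKN_all GSU CTH
theorem GUB_of (hB : NKB_stmt) : GUB_stmt := GUB hB GPU_all GKT GKN_all GSU CTH
theorem GGD_of (hA : NKA_stmt) (hB : NKB_stmt) : GGD_stmt := GGD (GLB_of hA) (GUA_of hA) (GUB_of hB)

/-- the output of block C' from the two outputs of block W' -/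
theorem PTS3_of (hA : NKA_stmt) (hB : NKB_stmt) : PTS3_stmt := GFI (GGD_of hA hB) GKT CLO GPA CRG

/-- the same with the statements of block W' -/
theorem PTS3_ofW (hL : RL.LFS_stmt) (hA : RL.VKA_stmt) (hB : RL.VKB_stmt) : PTS3_stmt :=
  PTS3_of (NKA_of hA hL) (NKB_of hB hL)

end Pool.Agent.RF
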