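import Pool.Agent.helper88.RF.AllW
import Pool.Agent.helper29.RF.CTH
import Pool.Agent.helper27.RF.CPR
import Pool.Agent.helper78.RF.CBA
import Pool.Agent.helper63.RF.CKS
import Pool.Agent.helper48.RF.CLO
import Pool.Agent.helper27.RF.CPA
import Pool.Agent.helper87.RF.CSP
import Pool.Agent.helper95.RF.CRG
import Pool.Agent.helper8.RF.CBD
import Pool.Agent.helper48.RF.CGD
import Pool.Agent.helper22.RF.CTR
import Pool.Agent.helper63.RF.CFB
import Pool.Agent.helper18.RF.CPX
import Pool.Agent.helper43.RF.CER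
import Pool.Agent.helper53.RF.CSU
import Pool.Agent.helper79.RF.CLN
import Pool.Agent.helper90.RF.CLB
import Pool.Agent.helper89.RF.CBS
import Pool.Agent.helper71.RF.CT0
import Pool.Agent.helper87.RF.CFI
import Pool.Agent.helper97.T5.ARC
import Pool.Agent.helper29.T5.WEY
import Pool.Agent.helper8.T5.AKR

set_option autoImplicit false

namespace Pool.Agent.RF

theorem CKS_all : CKS_stmt := CKS CTH CPR (CBA WVA_final)
theorem CFB_all : CFB_stmt := CFB (T5.ARC T5.AKR)
theorem CER_all : CER_stmt := CER SNR_final T5.WEY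
theorem CSU_all : CSU_stmt := CSU CFB_all CER_all
theorem CLN_all : CLN_stmt := CLN WIN_final WRE_final WRD_final
theorem CLB_all : CLB_stmt := CLB CSU_all CLN_all CPX WVA_final
theorem CT0_all : CT0_stmt := CT0 CPX
theorem CBD_all : CBD_stmt := CBD CSU_all CLN_all CPX WVA_final WIN_final
theorem CBS_all : CBS_stmt := CBS CBD_all
theorem CTR_all : CTR_stmt := CTR CTH
theorem CSP_all : CSP_stmt := CSP CTH
theorem CGD_all : CGD_stmt := CGD CLB_all CBS_all CT0_all CTR_all CSP_all CPX
theorem PTS_all : PTS_stmt := CFI CGD_all CKS_all CLO CPA CRG CPX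

end Pool.Agent.RF
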