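import Pool.Agent.helper88.RL.AllL
import Pool.Agent.helper14.RL.VGN
import Pool.Agent.helper16.RL.VDM
import Pool.Agent.helper32.RL.VRK
import Pool.Agent.helper33.RL.VMU
import Pool.Agent.helper35.RL.VNB
import Pool.Agent.helper39.RL.VEP
import Pool.Agent.helper39.RL.VKB
import Pool.Agent.helper41.RL.VSM
import Pool.Agent.helper43.RL.VSZ
import Pool.Agent.helper5.RL.VDQ
import Pool.Agent.helper50.RL.VKA
import Pool.Agent.helper64.RL.VNR
import Pool.Agent.helper65.RL.VWF
import Pool.Agent.helper75.RL.VDC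
import Pool.Agent.helper87.RL.VIN
import Pool.Agent.helper95.RF.AllC3

set_option autoImplicit false

/-! # RF stage 2: block W' assembled, and `PTS3` -/

namespace Pool.Agent.RL

open Finset Pool.Agent.helper3.FT Pool.Agent.T6 Pool.Agent.RF

theorem W3_VWF : VWF_stmt := VWF WVA_final
theorem W3_VDC : VDC_stmt := VDC WEU_final
theorem W3_VDQ : VDQ_stmt := VDQ VIN
theorem W3_VDM : VDM_stmt := VDM VIN
theorem W3_VSZ : VSZ_stmt := VSZ WVA_final
theorem W3_VGN : VGN_stmt := VGN allGP allGR allN1 allN2 allN4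
theorem W3_VNR : VNR_stmt := VNR W3_VGN W3_VDC W3_VDQ W3_VSZ WVA_final WEU_final allN4
theorem W3_VNB : VNB_stmt := VNB W3_VGN W3_VDC W3_VDM W3_VSZ WVA_final WEU_final allN4
theorem W3_VMU : VMU_stmt := VMU W3_VWF WRO_final
theorem W3_VSM : VSM_stmt := VSM VRK W3_VMU VEP allN4 allN5
theorem W3_VKA : VKA_stmt := VKA W3_VNR W3_VSM VRK W3_VWF allN4
theorem W3_VKB : VKB_stmt := VKB W3_VNB W3_VSM VRK W3_VMU allN4

end Pool.Agent.RL

namespace Pool.Agent.RF

/-- **the output of block C'** -/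
theorem PTS3_all : PTS3_stmt := PTS3_ofW RL.LFS_final RL.W3_VKA RL.W3_VKB

end Pool.Agent.RF
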