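import Pool.Agent.helper95.RF.SpecC3
import Pool.Agent.helper88.RL.SpecW

set_option autoImplicit false

/-! # RF stage 2: the inputs of block C' from block W' -/

namespace Pool.Agent.RF

open Finset NumberField Pool.Agent.helper3.FT

theorem Glue_KG {Q : ℕ} {k : OO} (h : KG Q k) : RL.KG Q k :=
  ⟨h.cp, h.q10, h.lo, h.hi, h.ba, h.bb⟩

theorem Glue_NK (B T E : ℕ) (k : OO) (a : ℤ × ℤ × ℤ) : NK B T E k a = RL.NK B T E k a := rfl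

theorem Glue_RM {k μ : OO} {P : ℤ} {a : ℤ × ℤ × ℤ} (h : RM k μ P a) : RL.RM k μ P a := by
  obtain ⟨h1, h2, h3⟩ := h
  push_cast at h1 h2 h3
  exact ⟨h1, h2, h3⟩

theorem NKA_of (h : RL.VKA_stmt) (hL : RL.LFS_stmt) : NKA_stmt := by
  obtain ⟨C, hC, h⟩ := h hL
  refine ⟨C, hC, ?_⟩
  intro Q B T E c G R g W a hQ hB hT hE hc hG hg h1 h2 h3 h4 h5
  have := h Q B T E c G R g W a hQ hB hT hE hc hG hg h1 h2 h3
    (fun k hk => ⟨Glue_KG (h4 k hk).1, (h4 k hk).2.1, (h4 k hk).2.2.2⟩) h5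
  exact this

theorem NKB_of (h : RL.VKB_stmt) (hL : RL.LFS_stmt) : NKB_stmt := by
  obtain ⟨C, hC, h⟩ := h hL
  refine ⟨C, hC, ?_⟩
  intro Q B T E l R g W a hQ hB hT hE hl hg h1 h2 h3 h4 h5
  have hQ0 : (0 : ℝ) < (Q : ℝ) := by exact_mod_cast hQ
  have hB0 : (0 : ℝ) < (B : ℝ) := by exact_mod_cast hB
  have hl0 : (0 : ℝ) < (l : ℝ) := by exact_mod_cast hl.pos
  have e1 : (l : ℝ) ^ (3 / 2 : ℝ) = l * √(l : ℝ) := by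
    rw [show (3 / 2 : ℝ) = 1 + 1 / 2 by norm_num, Real.rpow_add hl0, Real.rpow_one, ← Real.sqrt_eq_rpow]
  have e2 : (Q : ℝ) ^ 3 = (Q : ℝ) ^ (3 / 2 : ℝ) * (Q : ℝ) ^ (3 / 2 : ℝ) := by
    rw [← Real.rpow_add hQ0, show (3 / 2 : ℝ) + 3 / 2 = ((3 : ℕ) : ℝ) by norm_num, Real.rpow_natCast]
  have hQp : (0 : ℝ) < (Q : ℝ) ^ (3 / 2 : ℝ) := Real.rpow_pos_of_pos hQ0 _
  have e3 : (E : ℝ) * T * (l : ℝ) ^ (3 / 2 : ℝ) * B / (Q : ℝ) ^ (3 / 2 : ℝ) +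
      √(l : ℝ) * (Q : ℝ) ^ (3 / 2 : ℝ) / B ≤ R := by
    refine le_trans (le_of_eq ?_) h3
    rw [e1, e2]
    field_simp
  exact h Q B T E l R g W a hQ hB hT hE hl hg h1 h2 e3
    (fun k hk => ⟨Glue_KG (h4 k hk).1, (h4 k hk).2.1, Glue_RM (h4 k hk).2.2⟩) h5

end Pool.Agent.RF
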