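import Pool.Agent.helper88.RF.SpecW
import Pool.Agent.helper95.T5.SpecE

set_option autoImplicit false

/-!
# RF (MP_16912e_nt), block C part 1 (helper95): the elements `k`, residue classes, tuples and points, fibres, parameters

RULES. Row `rf:XXX`: file `Pool/Agent/<seat>/RF/XXX.lean`, `import Pool.Agent.helper95.RF.SpecC`, `set_option autoImplicit false`, `namespace Pool.Agent.RF`,
`open Finset NumberField Pool.Agent.helper3.FT`, auxiliary lemmas prefixed `XXX_`; the EXACT theorem line is in the lock note. No `convert`, `congr!`, `native_decide`, no double quotes. Rows are independent (other rows only as hypotheses).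

NOTATION. `OO = ℤ[φ]`, `x'` = `star x`, `φ φ' = -1`, `φ + φ' = 1`, `r5 = √5 = φ - φ'` (`r5' = -r5`), `w2 = r5 φ`, `q = |norm k|` (a prime not dividing `10 E`), `(z.norm : OO) = z z'`
(`QuadraticAlgebra.algebraMap_norm_eq_mul_star`, `eq_intCast`), `z - z' = z.im r5`, `z + z' = 2 z.re + z.im`. `va`, `vb` are ring homomorphisms `OO → ℝ`, `vb z = va z'`, `va z * vb z = norm z`.
`k` and `k'` are coprime: the ideal `(k, k')` contains `q` and `(k - k')² = 5 k.im²`, and `q ∤ 5 k.im²`. An integer divisible by `k ^ 3` (`k ^ 2`, `k`) is divisible by `q ^ 3` (`q ^ 2`, `q`): multiply by `k' ^ 3 ...`: `q³ ∣ m k'^3`, the coordinates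
of `k' ^ 3` are coprime to `q` (or: `k³ ∣ m` and, conjugating, `k'^3 ∣ m`, coprime, so `(k k')³ ∣ m`).

A TUPLE is `(k, M, s)` with `CG k M s`; the point is `n` with `2 φ n' k² = √5 s - N(M)` and `X` with `2 k' X = -(n M + φ n' M')`.
-/

namespace Pool.Agent.RF

open Finset NumberField Pool.Agent.helper3.FT

/-! ## Definitions -/

/-- the congruence of a tuple; `N(M) = norm M` -/
def CG (k M : OO) (s : ℤ) : Prop :=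
  k ^ 3 ∣ star k ^ 2 * (r5 * (s : OO) - (M.norm : OO)) - 2 * ph * k ^ 2 * M ^ 2

/-- a family of elements `k` (`KK` in helper88/RF/SpecW.lean: `q = |norm k|` prime in `(Q, 2 Q]`, balanced), one for each `q` -/
structure KF (Q : ℕ) (T : Finset OO) : Prop where
  kk : ∀ k ∈ T, KK Q k
  inj : ∀ k ∈ T, ∀ k' ∈ T, k.norm.natAbs = k'.norm.natAbs → k = k'

/-- the residue classes `M₀, s₀` modulo `E = 16 * 5 ^ 6 * P` for the element `k` -/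
structure Cls (P : ℕ) (k M₀ : OO) (s₀ : ℤ) : Prop where
  m2 : (16 : OO) ∣ M₀
  s2 : (16 : ℤ) ∣ s₀ - 2
  m5 : ∃ n₀ : OO, (25 : OO) ∣ n₀ - 1 ∧
    (5 : OO) ^ 6 ∣ 2 * ph * star n₀ * k ^ 2 - (r5 * (s₀ : OO) - (M₀.norm : OO)) ∧
    (5 : OO) ^ 6 ∣ n₀ * M₀ + ph * star n₀ * star M₀ + 2 * star k ∧
    (5 : OO) ^ 6 ∣ n₀ ^ 2 * star n₀ - 1 - 1250 * w2 * k ^ 2
  mP : (P : OO) ∣ 2 * ph * k ^ 2 - (r5 * (s₀ : OO) - (M₀.norm : OO))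

/-- `z ↦` integer points `(x, y, z)` of a box with `z` congruent to a quadratic polynomial modulo `q` -/
noncomputable def FB (x₀ y₀ z₀ : ℤ) (L V q : ℕ) (a b d e₁ e₂ c : ℤ) : Finset (ℤ × ℤ × ℤ) :=
  ((Ico x₀ (x₀ + L)) ×ˢ ((Ico y₀ (y₀ + L)) ×ˢ (Ico z₀ (z₀ + V)))).filter (fun t =>
    (q : ℤ) ∣ t.2.2 - (a * t.1 ^ 2 + b * t.1 * t.2.1 + d * t.2.1 ^ 2 + e₁ * t.1 + e₂ * t.2.1 + c))

/-- the element `M = M₀ + E (x + y φ)` of `t = (x, y, z)` -/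
def pM (E : ℕ) (M₀ : OO) (t : ℤ × ℤ × ℤ) : OO := M₀ + (E : OO) * ⟨t.1, t.2.1⟩

/-- the integer `s = s₀ + E z` of `t = (x, y, z)` -/
def ps (E : ℕ) (s₀ : ℤ) (t : ℤ × ℤ × ℤ) : ℤ := s₀ + E * t.2.2

open Classical in
/-- the tuples of `k` in the box `0 ≤ x, y < L`, `z₀ ≤ z < z₀ + V` -/
noncomputable def Hit (E : ℕ) (k M₀ : OO) (s₀ : ℤ) (L V : ℕ) (z₀ : ℤ) : Finset (ℤ × ℤ × ℤ) :=
  ((Ico 0 (L : ℤ)) ×ˢ ((Ico 0 (L : ℤ)) ×ˢ (Ico z₀ (z₀ + V)))).filter (fun t =>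
    CG k (pM E M₀ t) (ps E s₀ t))

/-- the size parameters; `S` is the size of `s` -/
structure Par (E Q L V : ℕ) (z₀ : ℤ) (N S : ℝ) : Prop where
  S0 : 0 < S
  S3 : S ^ 3 = 500 * N * (Q : ℝ) ^ 4
  L1 : 100 * (E : ℝ) * (L + 1) ≤ √S
  L2 : √S ≤ 200 * E * L
  z1 : S / 2 ≤ E * z₀
  z2 : (E : ℝ) * (z₀ + V + 1) ≤ S
  V2 : S ≤ 4 * E * V

/-- the size of `Q` -/
structure Rg (B : ℕ) (η N : ℝ) (Q : ℕ) : Prop where
  q1 : N ^ (1 / 2 - η) ≤ Q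
  q2 : (Q : ℝ) ≤ B * N ^ (1 / 2 - η)

/-- the expected number of tuples -/
noncomputable def T0 (T : Finset OO) (L V : ℕ) : ℝ :=
  ∑ k ∈ T, (L : ℝ) ^ 2 * V / (k.norm.natAbs : ℝ) ^ 3

/-! ## 1. The elements `k` -/

/-- **CTH** (short-medium; Thue's lemma).
Proof. (1) Pigeonhole: the `(⌊√q⌋ + 1)² > q` pairs `(a, b)` with `0 ≤ a, b ≤ ⌊√q⌋`: two of them have `a + r b` congruent modulo `q`; the difference `(a, b) ≠ 0` has `a², b² ≤ q` (`< q` as `q` is not a square) and `q ∣ a + r b`. Then modulo `q`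
`norm = a² + a b - b² ≡ b² (r² - r - 1) ≡ 0`; it is not `0` (`5` is not a square: `4 norm = (2 a + b)² - 5 b²`), and `|norm| < 2 q`: it is `± q`. `b` is a unit modulo `q` (else `q ∣ a` too and `q² ∣ norm`). For `M = ⟨m, n⟩`: `g ∣ M` iff `q` divides (the coordinates of) `g' M`:
`g' M = ⟨(a + b) m - b n .., ..⟩ `; modulo `q` (`a ≡ - r b`): both coordinates are unit multiples of `m + r n` (with `r² ≡ r + 1`).
(2) `5` is a square modulo `q` by quadratic reciprocity (`legendreSym.quadratic_reciprocity'` or `ZMod.exists_sq_eq_prime_iff_of_mod_four_eq_one` with `p = 5`), `r = (1 + √5)/2`; the other root is `1 - r`.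
(3) `4 N(M) = (2 m + n)² - 5 n²`: if `q ∤ n` then `5` is a square modulo `q`, so `q ≡ ± 1` modulo `5` (reciprocity); so `q ∣ n`, `q ∣ m`. -/
def CTH_stmt : Prop :=
  (∀ (q : ℕ) (r : ℤ), q.Prime → q ≠ 5 → (q : ℤ) ∣ r ^ 2 - r - 1 → ∃ g : OO, g.norm.natAbs = q ∧ g.re ^ 2 ≤ q ∧
    g.im ^ 2 ≤ q ∧ ∀ M : OO, g ∣ M ↔ (q : ℤ) ∣ M.re + r * M.im) ∧
  (∀ q : ℕ, q.Prime → (q % 5 = 1 ∨ q % 5 = 4) → ∃ r : ℤ, (q : ℤ) ∣ r ^ 2 - r - 1) ∧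
  (∀ q : ℕ, q.Prime → q ≠ 2 → (q % 5 = 2 ∨ q % 5 = 3) → ∀ M : OO, (q : ℤ) ∣ M.norm → (q : OO) ∣ M)

/-- **CPR** (medium; many primes `≡ ± 1` modulo `5` in a dyadic interval).
Proof. `∑_{p ≤ x, p ≡ ±1 mod 5} log p / p = (1/2) log x + O(1)`: adapt Pool/Agent/helper72/GD/G1.lean (`G1_thm`, the same for `± 1` modulo `8`; `2 · 1[p ≡ ±1] = 1 + χ₅(p)` for `p ≠ 5`), with `BB6a.mertens` and a copy of `Chi.mertens` (Pool/Agent/helper22/OC/BB6a.lean)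
for `χ₅` (values `1, -1, -1, 1, 0` at `1, 2, 3, 4, 5`; partial sums in `[-1, 1]`). The field `eight` of the structure `Chi` does NOT hold for `χ₅` (the sum is `0.315`); it is only used in `Chi.lim` to get `L ≥ 1/20`: use `∑_{n ≤ 40} χ₅(n)/n ≥ 0.4` and the tail `4/41`.
So for `J` large (constant) the primes in `(X₁, 2^J X₁]`, `X₁ = ⌈X⌉`, have `∑ log p / p ≥ 1`; one of the `J` intervals `(Q, 2 Q]`, `Q = 2^j X₁`, has `∑ log p / p ≥ 1 / J`; each term is at most `log (2 Q) / Q`. -/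
def CPR_stmt : Prop :=
  ∃ (B : ℕ) (c X₀ : ℝ), 1 ≤ B ∧ 0 < c ∧ ∀ X : ℝ, X₀ ≤ X → ∃ Q : ℕ, X ≤ Q ∧ (Q : ℝ) ≤ B * X ∧
    c * Q / Real.log Q ≤
      (((Ioc Q (2 * Q)).filter (fun q => q.Prime ∧ (q % 5 = 1 ∨ q % 5 = 4))).card : ℝ)

/-- **CBA** (short-medium; PURE; from WVA).  Balancing by units.
Proof. `ρ = |va g| / |vb g| > 0`; multiplication by the unit `φ` (`va φ = (1 + √5)/2`, `vb φ = - 1/va φ`) multiplies `ρ` by `φ²`; choose an integer `j` (`⌊log ρ / (2 log φ)⌋`-like, or `exists_mem_Ioc_zpow` for `φ²`) with `φ^(-1) ≤ ρ φ^(2j) ≤ φ`; the product `|va| |vb| = |norm g|` does not change, so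
both squares are at most `φ |norm g| ≤ 2 |norm g|`. (`φ` has the inverse `φ - 1`.) -/
def CBA_stmt : Prop :=
  ∀ g : OO, g ≠ 0 → ∃ k : OO, Associated g k ∧ va k ^ 2 ≤ 2 * (k.norm.natAbs : ℝ) ∧
    vb k ^ 2 ≤ 2 * (k.norm.natAbs : ℝ)

/-- **CKS** (short; from CTH, CPR, CBA): one `k` for each of these primes; `|va k| ≤ √(2 q) ≤ 2 √Q`; `|norm|` does not change under `Associated`; `q ≠ 5` because `q ≡ ± 1` modulo `5`. -/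
def CKS_stmt : Prop :=
  ∃ (B : ℕ) (c X₀ : ℝ), 1 ≤ B ∧ 0 < c ∧ ∀ X : ℝ, X₀ ≤ X → ∃ (Q : ℕ) (T : Finset OO), X ≤ Q ∧
    (Q : ℝ) ≤ B * X ∧ KF Q T ∧ c * Q / Real.log Q ≤ (T.card : ℝ)

/-! ## 2. Residue classes, tuples and points -/

/-- **CLO** (short-medium).  Existence of the classes.
Proof. Chinese remainder theorem for the moduli `16`, `5^6`, `P` (coordinates of `M₀`, and `s₀`; the conditions of `Cls` depend only on the classes of `M₀` and `s₀`: `N(M₀ + E x) ≡ N(M₀)`), then reduce to `[0, E)`. Modulo `16`: `M₀ = 0`, `s₀ = 2`.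
Modulo `P`: `M₀ = φ k - k'`, `s₀ = im (φ k²)`: `2 φ k² = (z - z') + (z + z')`, `z = φ k²`, `z - z' = s₀ r5`, and `N(φ k - k') = (φ k - k')(φ' k' - k) = - φ k² - φ' k'²` (exactly).
Modulo `5^6 = 15625` (`3 · 10417 = 1 + 2 · 15625`): `y = φ k²`, `δ = 10417 · 1250 · r5 (2 y + y')`, `n₀ = 1 + δ`, `M₀ = (φ k - k')(1 - δ)`, `s₀ = im (φ k² n₀')`; `5^8 ∣ δ²`. (a) `n₀² n₀' - 1 ≡ 2 δ + δ' = 10417 · 1250 · r5 (4 y + 2 y' - 2 y' - y) = 10417 · 1250 · 3 · r5 y ≡ 1250 r5 y = 1250 w2 k²`.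
(b) `n₀ M₀ = (1 - δ²)(φ k - k')`, so `n₀ M₀ + φ n₀' M₀' ≡ (φ k - k') + φ (φ' k' - k) = - 2 k'`. (c) with `z = φ n₀' k²`: `2 z = s₀ r5 + (z + z')` and `z + z' ≡ - N(M₀)`: `N(M₀) ≡ N(φ k - k') (1 - δ - δ') = - (y + y')(1 - δ - δ')`, `z + z' = y + y' + y δ' + y' δ`, and
`y δ' + y' δ + (y + y')(δ + δ') = 2 y δ' + 2 y' δ + y δ + y' δ' ≡ 0`: with `3 δ ≡ 1250 r5 (2 y + y')`, `3 δ' ≡ - 1250 r5 (2 y' + y)`: `3 (..) ≡ 1250 r5 (- 2 y (2 y' + y) + 2 y' (2 y + y') + y (2 y + y') - y' (2 y' + y)) = 0`. -/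
def CLO_stmt : Prop :=
  ∀ (P : ℕ) (k : OO), Nat.Coprime P 10 → ∃ (M₀ : OO) (s₀ : ℤ), Cls P k M₀ s₀ ∧
    0 ≤ M₀.re ∧ M₀.re < 16 * 5 ^ 6 * P ∧ 0 ≤ M₀.im ∧ M₀.im < 16 * 5 ^ 6 * P ∧
    0 ≤ s₀ ∧ s₀ < 16 * 5 ^ 6 * P

/-- **CPA** (medium; pure algebra in `OO`).  The point of a tuple.
Proof. `t = N(M)`. (n) `CG` modulo `k²`: `k² ∣ k'² (r5 s - t)`, so `k² ∣ r5 s - t` (`k'` is a unit modulo `k²`). `r5 s - t = 2 (s φ - (s + t)/2)`: `s` is even (`16 ∣ E`), `16 ∣ M` so `t` is even: `2 φ k² ∣ r5 s - t` (`2` and `k` coprime, `φ` a unit): this defines `n'`. (4) conjugate: `2 φ' n k'² = - r5 s - t`; sum: `φ n' k² + φ' n k'² = - M M'`.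
(5) conjugate `CG`: `k'^3 ∣ k² (- r5 s - t) - 2 φ' k'² M'² = 2 φ' k'² (n k² - M'²)`, so `k' ∣ n k² - M'²`. (X) `k' ∣ n M + φ n' M'`: times `k²`: `n M k² + (φ n' k²) M' ≡ M M'² - M M' M' = 0` modulo `k'` (by (5), and (4) modulo `k'`). `16 ∣ M`, so `16 ∣ n M + φ n' M'`, so `2 k'` divides it, and `8 ∣ X`.
(e2) `φ X' k - X k' = n M`: times `2`: `φ X' 2 k = - φ (n' M' + φ' n M) = - φ n' M' + n M`, `2 k' X = - n M - φ n' M'`. (D) `G = n² n' - X²`. From (4) and (e2): `(φ k X' - k' X)(φ k X' + k' X) = (n M)(- φ n' M')` (`φ k X' + k' X = - φ n' M'`: the same computation) `= - φ n n' M M' = φ n n' (φ n' k² + φ' n k'²) = n n' (φ² n' k² - n k'²)`, so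
`k'² G = φ² k² G'`. So `k² ∣ G`, `G = k² G₁`, `G₁ = φ² G₁'`, i.e. `z = φ' G₁` has `z' = φ G₁' = φ φ'^2 G₁ = - z`, so `z = - x r5` with `x ∈ ℤ` (`z = a + b φ`, `2 a + b = 0`), `G₁ = - φ z = x r5 φ = x w2`: `G = x w2 k²`.
(5-adic) `n ≡ n₀` modulo `5^6` (`2 φ k²` is a unit modulo `5`), `X ≡ 1` modulo `5^6`, so `x w2 k² = n² n' - X² ≡ 1250 w2 k²`, `5^6 ∣ w2 (x - 1250)`, so `5^6 ∣ x - 1250` up to a factor `r5` : `r5 (x - 1250) ∈ 5^6 OO` gives `5^6 ∣ x - 1250` (coordinates of `r5 m` are `- m, 2 m`). So `x = 625 D`, `25 ∣ D - 2`, and `X² + w2 D (25 k)² = n² n'`.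
(2-adic) modulo `8`: `X² ≡ 0`, `2 φ n' k² = r5 s - t`, `t ≡ 0` modulo `256`: `φ n' k² ≡ r5 (s/2)`, `s/2 ≡ 1` modulo `8`: `φ n' k² ≡ r5`, `φ' n k'² ≡ - r5` (so `n` is a unit modulo `2`); product of the first and the square of the second: `φ φ'^2 n² n' k² k'^4 ≡ r5³ = 5 r5`, i.e. `- φ' n² n' k² k'^4 ≡ 5 r5`, times `φ`:
`n² n' k² k'^4 ≡ 5 r5 φ = 5 w2`; and `n² n' ≡ 625 w2 D k²`: `625 D (k k')^4 w2 ≡ 5 w2`, `(k k')^4 ≡ 1` modulo `8`, `w2 w2' = 5` is a unit: `D ≡ 5` modulo `8`. With `D ≡ 2` modulo `5`: `D ≡ 17` modulo `20`.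
(coprime) `q ∤ N(M)`, so `k ∤ M`, `k ∤ M'`. If `k ∣ n`: `k² ∣ X²`, `k ∣ X` (`k` prime: `OO/k = 𝔽_q`; or: `k ∣ X²` gives `q ∣ N(X)²`, `q ∣ X X'`... use: `k` is prime), so `k ∣ n M + φ n' M'`, `k ∣ n' M'`, `k ∣ n'`; then (4): `k ∣ M M'`, contradiction. If `k ∣ n'`: `k ∣ X²`, `k ∣ X`, `k ∣ n M`, so `k ∣ n` : first case. As `k` is prime, `¬ k ∣ n` gives `IsCoprime k n` (`OO/k` is a field:
for every `x` there is an integer `m` with `k ∣ x - m`; `m m₁ ≡ 1` modulo `q`). (P) `2 φ n' k² = r5 s - t ≡ r5 s₀ - N(M₀) ≡ 2 φ k²` modulo `P`, `2 φ k²` is a unit modulo `P`: `n ≡ 1` modulo `P`. -/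
def CPA_stmt : Prop :=
  ∀ (E P : ℕ) (k M₀ M : OO) (s₀ s : ℤ), E = 16 * 5 ^ 6 * P → Nat.Coprime P 10 → 1 ≤ P →
    k.norm.natAbs.Prime → Nat.Coprime k.norm.natAbs E → Cls P k M₀ s₀ → (E : OO) ∣ M - M₀ →
    (E : ℤ) ∣ s - s₀ → CG k M s → ¬ k.norm ∣ M.norm →
    ∃ (n X : OO) (D : ℤ), 2 * ph * star n * k ^ 2 = r5 * (s : OO) - (M.norm : OO) ∧
      2 * star k * X = -(n * M + ph * star n * star M) ∧
      X ^ 2 + w2 * (D : OO) * (25 * k) ^ 2 = n ^ 2 * star n ∧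
      n * M = ph * star X * k - X * star k ∧
      (25 : OO) ∣ X - 1 ∧ (25 : OO) ∣ n - 1 ∧ IsCoprime k n ∧ IsCoprime k (star n) ∧ IsCoprime 2 n ∧
      D % 20 = 17 ∧ (P : OO) ∣ n - 1

/-- **CSP** (short-medium; from CTH).  Bad primes.
Proof. `l ∣ n` gives `l ∣ n'`, `l ∣ r5 s - N(M)` and (conjugate) `l ∣ r5 s + N(M)`, so `l ∣ 2 N(M)`, `l ∣ N(M)`, `l ∣ r5 s`, so `l ∣ s`. If `l ≡ ± 2` modulo `5`: `G = {(l, 1)}` (CTH (3)). If `l ≡ ± 1`: `r` and `1 - r` are the two roots, `G = {(1, g), (1, g₂)}` (CTH (1)): modulo `l`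
`N(M) ≡ (m + r n)(m + (1 - r) n)`, `M = ⟨m, n⟩`. -/
def CSP_stmt : Prop :=
  ∀ l : ℕ, l.Prime → l ≠ 2 → l ≠ 5 → ∃ G : Finset (ℕ × OO), G.card ≤ 2 ∧
    (∀ p ∈ G, 1 ≤ p.1 ∧ p.1 * p.2.norm.natAbs = l ∧ p.2.re ^ 2 ≤ p.2.norm.natAbs ∧
      p.2.im ^ 2 ≤ p.2.norm.natAbs) ∧
    ∀ (k n M : OO) (s : ℤ), 2 * ph * star n * k ^ 2 = r5 * (s : OO) - (M.norm : OO) → (l : OO) ∣ n →
      ∃ p ∈ G, (p.1 : OO) * p.2 ∣ M ∧ (p.1 : ℤ) * p.2.norm ∣ s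

/-- **CRG** (medium; real inequalities).  The region.
Proof. `K = va k`, `K' = vb k`, `|K K'| = q`, `t = N(M)`, `|t| ≤ (5/4) S / 10^4 ≤ 2.6 · 10^(-4) s`. `va`, `vb` of the equation for `n`: `ν' := vb n = (√5 s - t)/(2 φ K²)`, `ν := va n = φ (√5 s + t)/(2 K'²)`. So `norm n = ν ν' = (5 s² - t²)/(4 q²)`, which gives the last claim.
`va X = - (φ (√5 s + t) K² m + (√5 s - t) K'² m')/(4 K² K'^3)`, `m = va M`, `m' = vb M`, `|m|, |m'| ≤ (1 + φ) √S / 100`, `K², K'² ≤ 4 q`: `|va X| ≤ (2.24 · 2.62 · (4 φ + 4)/4) s √S / (100 q |K'|) ≤ 15.4 s √S / (100 q |K'|)`. The equation for `D`: `D = ((√5 s + t)² (√5 s - t))/(5000 √5 q⁴) - (va X)²/(625 √5 φ K²)`; the first term is `(s³/(1000 q⁴)) (1 ± 10^(-3))`, the second is at most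
`(15.4)² s² S / (10^4 q² K'² · 2261 K²) ≤ 0.00003 s³/q⁴` (`S ≤ 2 s`). -/
def CRG_stmt : Prop :=
  ∀ (k M n X : OO) (s D : ℤ) (S : ℝ), 0 < S → 0 < k.norm.natAbs → va k ^ 2 ≤ 4 * (k.norm.natAbs : ℝ) →
    vb k ^ 2 ≤ 4 * (k.norm.natAbs : ℝ) → |(M.re : ℝ)| ≤ √S / 100 → |(M.im : ℝ)| ≤ √S / 100 → S / 2 ≤ s →
    (s : ℝ) ≤ S → 2 * ph * star n * k ^ 2 = r5 * (s : OO) - (M.norm : OO) →
    2 * star k * X = -(n * M + ph * star n * star M) →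
    X ^ 2 + w2 * (D : OO) * (25 * k) ^ 2 = n ^ 2 * star n →
    (s : ℝ) ^ 3 ≤ 2000 * (k.norm.natAbs : ℝ) ^ 4 * D ∧ 500 * (k.norm.natAbs : ℝ) ^ 4 * D ≤ (s : ℝ) ^ 3 ∧
      (k.norm.natAbs : ℝ) ^ 2 * |(n.norm : ℝ)| ≤ 2 * (s : ℝ) ^ 2

/-- **CTR** (short-medium; from CTH).  Few tuples with `q ∣ N(M)`.
Proof. `CG` for the same `M` and two values `s, s₁` gives `k³ ∣ k'² r5 (s - s₁)`, so `q³ ∣ s - s₁`, so `q³ ∣ E (z - z₁)`, `q³ ∣ z - z₁`, and `V ≤ q³`: at most one `z` for each `(x, y)`. `q ∣ N(M)`, `q ≡ ± 1` modulo `5` (as `q` is a norm, `q ≠ 5`: `4 q = ± ((2a+b)² - 5 b²)`), `M = ⟨m, n⟩`: `q ∣ m + r n` or `q ∣ m + (1 - r) n`, so for each `y` there are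
two classes of `x` modulo `q` (`E` is a unit modulo `q`): at most `2 (L/q + 1)` values of `x`. -/
def CTR_stmt : Prop :=
  ∀ (E L V : ℕ) (k M₀ : OO) (s₀ z₀ : ℤ), k.norm.natAbs.Prime → Nat.Coprime k.norm.natAbs (10 * E) →
    V ≤ k.norm.natAbs ^ 3 →
    (((Hit E k M₀ s₀ L V z₀).filter (fun t => k.norm ∣ (pM E M₀ t).norm)).card : ℝ) ≤
      2 * L * ((L : ℝ) / k.norm.natAbs + 1)

/-! ## 3. Fibres -/

/-- **CFB** (short; from ARC).  Two sided estimate of `FB`.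
Proof. ARC with `s` = the `L²` pairs `(x, y)`, `x_i = (a x² + b x y + d y² + e₁ x + e₂ y + c)/q`, the arc `[z₀/q, (z₀ + V)/q)` (`4 V ≤ q`): `(x, y, z) ↦ (x, y)` is a bijection of `FB` onto the pairs with `x_i` in the arc modulo `1` (`z` = the integer congruent to the numerator in `[z₀, z₀ + V)`; unique because `V ≤ q`).
`|∑ e(h x_i)| = ‖ESg ..‖` (the constant `e(h c/q)` has absolute value `1`; in `ESg` the modulus is `1`, the filters are trivial). Model: the proof of FIB2 (find it with grep FIB2_proof or theorem FIB2 in Pool/Agent/*/T5/). -/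
def CFB_stmt : Prop :=
  ∀ η : ℝ, 0 < η → η ≤ 1 → ∃ R C : ℝ, 1 ≤ R ∧ 1 ≤ C ∧ ∀ (x₀ y₀ z₀ : ℤ) (L V q H : ℕ)
    (a b d e₁ e₂ c : ℤ), 1 ≤ L → 1 ≤ V → 4 * V ≤ q → R * q ≤ H * V →
    |((FB x₀ y₀ z₀ L V q a b d e₁ e₂ c).card : ℝ) - (L : ℝ) ^ 2 * V / q| ≤
      η * ((L : ℝ) ^ 2 * V / q) + C * ((V : ℝ) / q) * ∑ h ∈ Icc 1 (2 * H),
        ‖T5.ESg x₀ y₀ L L 1 0 0 ((h : ℝ) * a / q) ((h : ℝ) * b / q) ((h : ℝ) * d / q)
          ((h : ℝ) * e₁ / q) ((h : ℝ) * e₂ / q)‖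

/-- **CPX** (short-medium).  Existence of the parameters and their sizes.
Proof. `S = (500 N Q⁴)^(1/3)`, `L = ⌊√S/(100 E)⌋ - 1`, `z₀ = ⌈S/(2E)⌉`, `V = ⌊S/(2E)⌋ - 3`. `N^(1 - 4η/3) ≤ S ≤ 8 B² N^(1 - 4η/3)` (`500^(1/3) < 8`). -/
def CPX_stmt : Prop :=
  ∀ (E B : ℕ) (η : ℝ), 1 ≤ E → 1 ≤ B → 0 < η → η ≤ 1 / 100 → ∃ N₀ : ℝ, ∀ N : ℝ, N₀ ≤ N → ∀ Q : ℕ,
    Rg B η N Q → (∃ (L V : ℕ) (z₀ : ℤ) (S : ℝ), Par E Q L V z₀ N S) ∧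
    ∀ (L V : ℕ) (z₀ : ℤ) (S : ℝ), Par E Q L V z₀ N S →
      N ^ (1 - 4 / 3 * η) ≤ S ∧ S ≤ 8 * B ^ 2 * N ^ (1 - 4 / 3 * η) ∧ 4 * (V : ℝ) ≤ (Q : ℝ) ^ 3 ∧
      N ^ (1 / 2 - 3 / 4 * η) ≤ L ∧ N ^ (1 - 3 / 2 * η) ≤ V ∧ (L : ℝ) ≤ N ∧ (V : ℝ) ≤ N ∧ (E : ℝ) ≤ Q

end Pool.Agent.RF
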