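import Pool.Agent.helper95.RF.SpecC

set_option autoImplicit false

/-!
# RF (MP_16912e_nt), block C part 2 (helper95): sums over `k`, bad primes, assembly (`PTS_stmt`)

RULES. Row `rf:XXX`: file `Pool/Agent/<seat>/RF/XXX.lean`, `import Pool.Agent.helper95.RF.SpecC2`, `set_option autoImplicit false`, `namespace Pool.Agent.RF`, `open Finset NumberField Pool.Agent.helper3.FT`, auxiliary lemmas prefixed `XXX_`; the EXACT theorem line is in the lock note.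
No `convert`, `congr!`, `native_decide`, no double quotes. Rows are independent (other rows only as hypotheses). Notation and facts on `OO`: header of SpecC.lean; `KK, RQ, nearK, WVA, WIN, WRE, WRD, SNR`: helper88/RF/SpecW.lean; `WEY`: `T5.WEY_stmt` (helper95/T5/SpecN.lean).
SIZES (all constants depend on `E, B, η, C₀`): `Q ≍ N^(1/2 - η)`, `S ≍ N^(1 - 4η/3)` (`S³ = 500 N Q⁴`), `L ≍ √S / E`, `V ≍ S / E`, `T0 ≍ T.card L² V / Q³`, at least `N^(1 - 2η/3) / log N`.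
-/

namespace Pool.Agent.RF

open Finset NumberField Pool.Agent.helper3.FT

/-- the condition for `(M₂, s₂)` where `M = c g M₂`, `s = c norm g s₂` (for `c = 1`, `g = 1` this is `CG`) -/
def TW (k g : OO) (c : ℤ) (M : OO) (s : ℤ) : Prop :=
  k ^ 3 ∣ star g * (r5 * (s : OO) - (c : OO) * (M.norm : OO)) * star k ^ 2 - 2 * ph * (c : OO) * k ^ 2 * g * M ^ 2

/-! ## 1. Sums of fibres -/

/-- **CER** (medium; from SNR (helper88), WEY).  The exponential sums of a family.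
Proof. WEY (T5) with `P = 1`: `‖ESg ..‖² ≤ C (1 + log B)² B² near` (`near` = `nearK B A h k` does not depend on the linear terms and the position), `1 + log B ≤ C Q^(ε/2)` as `B² ≤ C₀ Q³`. Frequencies not divisible by `q`: SNR with its `T := ⌈C₀⌉ Q³` and exponent `ε/8` (`H, G, L ≤ T`; `T^(ε/8) ≤ C Q^(ε/2)`;
`k ∣ k₁` gives `q ∣ q₁`, both primes, so `k = k₁` by `KF.inj`). Frequencies divisible by `q > Q`: at most `H / Q` for each `k`, trivial bound `‖ESg‖ ≤ B²`, and `T.card ≤ Q` (`k ↦ q` is injective into `(Q, 2 Q]`): in total at most `H B²`. -/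
def CER_stmt : Prop :=
  ∀ ε C₀ : ℝ, 0 < ε → 1 ≤ C₀ → ∃ C : ℝ, 1 ≤ C ∧ ∀ (Q B H c : ℕ) (G L : ℝ) (g : OO) (T : Finset OO)
    (A : OO → ℤ × ℤ × ℤ) (x y : OO → ℤ) (u w : OO → ℕ → ℝ), KF Q T → 1 ≤ Q → 1 ≤ B → 1 ≤ H → 1 ≤ c → 1 ≤ G →
    G ≤ Q → 1 ≤ L → L ≤ (Q : ℝ) ^ 2 → g ≠ 0 → |va g| ≤ 2 * G → |vb g| ≤ 2 * G → (∀ k ∈ T, IsCoprime k (star g)) →
    (∀ k ∈ T, RQ k g c (A k).1 (A k).2.1 (A k).2.2) → (H : ℝ) * c * (B : ℝ) ^ 2 ≤ C₀ * (Q : ℝ) ^ 3 →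
    (Q : ℝ) ^ 3 ≤ L ^ 2 * (B : ℝ) ^ 2 →
    ∑ k ∈ T, ∑ h ∈ Icc 1 H, ‖T5.ESg (x k) (y k) B B 1 0 0 ((h : ℝ) * (A k).1 / (k.norm.natAbs : ℝ) ^ 3)
      ((h : ℝ) * (A k).2.1 / (k.norm.natAbs : ℝ) ^ 3) ((h : ℝ) * (A k).2.2 / (k.norm.natAbs : ℝ) ^ 3)
      (u k h) (w k h)‖ ≤
      C * (Q : ℝ) ^ ε * B * (Q * H + √(Q * H) * G * L ^ 2 + Q * G * L ^ 2 + Q * √(H : ℝ) * L) + H * (B : ℝ) ^ 2

/-- **CSU** (medium; from CFB, CER).  The sum of the fibres of a family.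
Proof. CFB for each `k` with the modulus `q³`, with one `H = ⌈8 R Q³ / V⌉` (`R q³ ≤ H V` as `q ≤ 2 Q`; `4 V ≤ Q³ ≤ q³`); `V/q³ ≤ V/Q³`. CER with `2 H` for `H`, `L = Q^(3/2)/B ≥ 1`: `2 H c B² ≤ C Q³` because `c B² ≤ C₀ V` and `H ≤ 16 R Q³/V` (`V ≤ Q³`, `R ≥ 1`). With `H V ≤ C Q³` and
`H ≥ Q³/V`: `(V/Q³) B Q H ≤ C B Q`; `(V/Q³) B √(QH) G L² ≤ C B G √(Q V/Q³) L² = C G √V Q^2 / B`; `(V/Q³) B Q G L² = V G Q / B`; `(V/Q³) B Q √H L ≤ C B Q √(V/Q³) Q^(3/2)/B = C Q √V`; `(V/Q³) H B² ≤ C B²`. -/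
def CSU_stmt : Prop :=
  ∀ η ε C₀ : ℝ, 0 < η → η ≤ 1 → 0 < ε → 1 ≤ C₀ → ∃ C : ℝ, 1 ≤ C ∧ ∀ (Q B V c : ℕ) (G : ℝ) (g : OO)
    (T : Finset OO) (A : OO → ℤ × ℤ × ℤ) (x y z e₁ e₂ f : OO → ℤ), KF Q T → 1 ≤ Q → 1 ≤ B → 1 ≤ V → 1 ≤ c →
    1 ≤ G → G ≤ Q → g ≠ 0 → |va g| ≤ 2 * G → |vb g| ≤ 2 * G → (∀ k ∈ T, IsCoprime k (star g)) →
    (∀ k ∈ T, RQ k g c (A k).1 (A k).2.1 (A k).2.2) → (c : ℝ) * (B : ℝ) ^ 2 ≤ C₀ * V → (B : ℝ) ^ 2 ≤ (Q : ℝ) ^ 3 →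
    4 * (V : ℝ) ≤ (Q : ℝ) ^ 3 →
    |∑ k ∈ T, ((FB (x k) (y k) (z k) B V (k.norm.natAbs ^ 3) (A k).1 (A k).2.1 (A k).2.2 (e₁ k) (e₂ k)
      (f k)).card : ℝ) - T0 T B V| ≤ η * T0 T B V +
        C * (Q : ℝ) ^ ε * (B * Q + G * ((Q : ℝ) ^ 2 * √(V : ℝ) + Q * V) / B + Q * √(V : ℝ)) + C * (B : ℝ) ^ 2

/-- **CLN** (short-medium; from WRE, WRD of helper88, WIN).  Residue classes modulo `E`: `M₂ + E ⟨x, y⟩`, `s₂ + E z`.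
Proof. WRE gives `(α, β, γ)` for `k, g, c`; WRD with `⟨m + E x, n + E y⟩` (`M₂ = ⟨m, n⟩`; `norm ⟨X, Y⟩ = X² + X Y - Y²`): `TW` iff `q³ ∣ s₂ + E z - (α (m + E x)² + β (m + E x)(n + E y) + γ (n + E y)²)`. Let `E E₁ ≡ 1` modulo `q³`; multiply by `E₁`: `z - (E α x² + E β x y + E γ y² + e₁ x + e₂ y + f)`, `e₁ = 2 α m + β n`,
`e₂ = β m + 2 γ n`, `f = E₁ (α m² + β m n + γ n² - s₂)`. `RQ k g (c E) (E α) (E β) (E γ)`: multiply the conditions by `E`. -/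
def CLN_stmt : Prop :=
  ∀ (E : ℕ) (k g M₂ : OO) (c s₂ : ℤ), k.norm.natAbs.Prime → k.norm.natAbs ≠ 5 → Nat.Coprime k.norm.natAbs E →
    IsCoprime k (star g) → ∃ a b d e₁ e₂ f : ℤ, RQ k g (c * E) a b d ∧ ∀ x y z : ℤ,
      (TW k g c (M₂ + (E : OO) * ⟨x, y⟩) (s₂ + E * z) ↔
        ((k.norm.natAbs ^ 3 : ℕ) : ℤ) ∣ z - (a * x ^ 2 + b * x * y + d * y ^ 2 + e₁ * x + e₂ * y + f))

/-! ## 2. The number of tuples -/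

/-- **CLB** (short-medium; from CSU, CLN, CPX).  Lower bound for the number of all tuples.
Proof. `CG` is `TW` with `g = 1`, `c = 1`. CLN (`q > Q ≥ E`, and `q > 5`, so `q` is coprime to `10 E`): `Hit E k M₀ s₀ L V z₀ = FB 0 0 z₀ L V (q³) ..`. CSU with `η = 1/4`, `ε = η/100`, `c = E`, `G = 1`, `g = 1` (`va 1 = 1`), `B = L`: `E L² ≤ C₀ V` (`100 E L ≤ √S`, `S ≤ 4 E V`), `L² ≤ S ≤ Q³`. The error is at most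
`C N^ε (√S Q + Q² + Q √S) + C S`, `√S ≤ C N^(1/2 - 2η/3)`, `Q ≤ B N^(1/2 - η)`, `1/C' √S ≤ L ≤ √S` (`(Q² √V + Q V)/L ≤ C (Q² + Q √S)`), `S ≤ C N^(1 - 4η/3)`: it is `≤ N^(1 - 5η/4)` (`2, 5/3, 4/3 > 5/4`). -/
def CLB_stmt : Prop :=
  ∀ (E B : ℕ) (η : ℝ), 1 ≤ E → 1 ≤ B → 0 < η → η ≤ 1 / 100 → ∃ N₀ : ℝ, ∀ N : ℝ, N₀ ≤ N →
    ∀ (Q L V : ℕ) (z₀ : ℤ) (S : ℝ) (T : Finset OO) (M₀ : OO → OO) (s₀ : OO → ℤ), Rg B η N Q →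
    Par E Q L V z₀ N S → KF Q T →
    3 / 4 * T0 T L V - N ^ (1 - 5 / 4 * η) ≤ ∑ k ∈ T, ((Hit E k (M₀ k) (s₀ k) L V z₀).card : ℝ)

open Classical in
/-- **CBD** (medium; from CSU, CLN, CPX).  Upper bound for the tuples with `c g ∣ M` and `c norm g ∣ s`, `l = c |norm g|` prime.
Proof. `n = |norm g|`. For `t` in the set: `M = pM = c g M₂`, `s = ps = c norm g s₂`: `CG k M s` is `k³ ∣ c g (...)` with `(...)` the expression of `TW k g c M₂ s₂` (`norm M = c² g g' norm M₂`), `c g` is coprime to `k` (`l ≤ N^(3η/4) < Q`): `TW k g c M₂ s₂`. The classes: `c g M₂ ≡ M₀` modulo `E`, and `c g` is a unit modulo `E`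
(`c g g'` is coprime to `E`): `M₂ ≡ M₂₀` for a fixed `M₂₀` with coordinates in `[0, E)`, so `M₂ = M₂₀ + E ⟨x, y⟩`; `s₂ = s₂₀ + E z`. Sizes: `|va M|, |vb M| ≤ 2.62 · E (L + 1)` (coordinates of `M` in `[0, E (L + 1))`), `|va g|, |vb g| ≤ 2.62 √n` and `|va g vb g| = n`, so `|va M₂|, |vb M₂| ≤ 6.9 E (L + 1)/(c √n)`,
and the coordinates of `M₂` are at most this (`im = (va - vb)/√5`, `re = ((φ - 1) va + φ vb)/√5`). So `(x, y)` is in a fixed square of side `B' := ⌈30 L/(c √n)⌉ ≤ 60 L/(c √n)`, and `z` in an interval of length `V' := ⌈V/l⌉ + 1 ≤ 2 V / l` (`s₂ = ± s / l`; `l ≤ N^(3η/4)` is much smaller than `L`, `V`). `t ↦ (x, y, z)` is injective.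
CLN with this `g`, `c`: the `(x, y, z)` are in `FB`. CSU with `η = 1`, `ε = η/100`, `c E` for `c`, `G = 1.31 √n`: `c E B'^2 ≤ C c E L²/(c² n) ≤ C₀ V'`. Main term: `2 T0 T B' V' ≤ 14400 T0 T L V/(c² n l)` and `c² n l ≥ l²`. Error: `B' Q ≤ C √S Q`; `G Q² √V'/B' ≤ C √n Q² √(S/l) c √n/√S = C Q² c n/√l = C Q² √l`;
`G Q V'/B' ≤ C √n Q (S/l) c √n/√S = C Q √S`; `Q √V' ≤ C Q √S`; all `≤ (1/2) N^(1 - 8η/5)` with the factor `N^ε` (`5/3 > 8/5`, `2 - 3/8 > 8/5`); `B'^2 ≤ C S/(c² n) ≤ C S/l ≤ N^(1 - 5η/4)/l`. -/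
def CBD_stmt : Prop :=
  ∃ C₀ : ℝ, 1 ≤ C₀ ∧ ∀ (E B : ℕ) (η : ℝ), 1 ≤ E → 1 ≤ B → 0 < η → η ≤ 1 / 100 → ∃ N₀ : ℝ, ∀ N : ℝ, N₀ ≤ N →
    ∀ (Q L V : ℕ) (z₀ : ℤ) (S : ℝ) (T : Finset OO) (M₀ : OO → OO) (s₀ : OO → ℤ), Rg B η N Q →
    Par E Q L V z₀ N S → KF Q T →
    (∀ k ∈ T, 0 ≤ (M₀ k).re ∧ (M₀ k).re < E ∧ 0 ≤ (M₀ k).im ∧ (M₀ k).im < E ∧ 0 ≤ s₀ k ∧ s₀ k < E) →
    ∀ (c : ℕ) (g : OO), (c * g.norm.natAbs).Prime → Nat.Coprime (c * g.norm.natAbs) E →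
    g.re ^ 2 ≤ g.norm.natAbs → g.im ^ 2 ≤ g.norm.natAbs →
    ((c * g.norm.natAbs : ℕ) : ℝ) ≤ N ^ (3 / 4 * η) →
    ∑ k ∈ T, (((Hit E k (M₀ k) (s₀ k) L V z₀).filter (fun t => (c : OO) * g ∣ pM E (M₀ k) t ∧
      (c : ℤ) * g.norm ∣ ps E (s₀ k) t)).card : ℝ) ≤
      C₀ * T0 T L V / ((c * g.norm.natAbs : ℕ) : ℝ) ^ 2 + N ^ (1 - 8 / 5 * η) +
        N ^ (1 - 5 / 4 * η) / ((c * g.norm.natAbs : ℕ) : ℝ)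

open Classical in
/-- **CBS** (short-medium; from CBD).  Sum over the bad primes. `G l` = the set of CSP.
Proof. Sum of CBD over the primes `w₀ < l ≤ N^(3η/4)` not dividing `E` and the at most two `p ∈ G l`: `∑_{l > w₀} 2/l² ≤ 2/w₀`; `2 N^(3η/4) N^(1 - 8η/5)`; `2 N^(1 - 5η/4) ∑_{l ≤ N^(3η/4)} 1/l ≤ N^(1 - 5η/4) (2 + 2 log N)`; `3/4 - 8/5 = - 17/20 < - 4/5`. -/
def CBS_stmt : Prop :=
  ∃ C₀ : ℝ, 1 ≤ C₀ ∧ ∀ (E B w₀ : ℕ) (η : ℝ), 1 ≤ E → 1 ≤ B → 1 ≤ w₀ → 0 < η → η ≤ 1 / 100 →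
    ∃ N₀ : ℝ, ∀ N : ℝ, N₀ ≤ N →
    ∀ (Q L V : ℕ) (z₀ : ℤ) (S : ℝ) (T : Finset OO) (M₀ : OO → OO) (s₀ : OO → ℤ), Rg B η N Q →
    Par E Q L V z₀ N S → KF Q T →
    (∀ k ∈ T, 0 ≤ (M₀ k).re ∧ (M₀ k).re < E ∧ 0 ≤ (M₀ k).im ∧ (M₀ k).im < E ∧ 0 ≤ s₀ k ∧ s₀ k < E) →
    ∀ (Λ : Finset ℕ) (G : ℕ → Finset (ℕ × OO)), (∀ l ∈ Λ, l.Prime ∧ Nat.Coprime l E ∧ w₀ < l ∧
      (l : ℝ) ≤ N ^ (3 / 4 * η)) → (∀ l ∈ Λ, (G l).card ≤ 2 ∧ ∀ p ∈ G l, p.1 * p.2.norm.natAbs = l ∧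
      p.2.re ^ 2 ≤ p.2.norm.natAbs ∧ p.2.im ^ 2 ≤ p.2.norm.natAbs) →
    ∑ l ∈ Λ, ∑ p ∈ G l, ∑ k ∈ T, (((Hit E k (M₀ k) (s₀ k) L V z₀).filter (fun t =>
      (p.1 : OO) * p.2 ∣ pM E (M₀ k) t ∧ (p.1 : ℤ) * p.2.norm ∣ ps E (s₀ k) t)).card : ℝ) ≤
      C₀ / w₀ * T0 T L V + N ^ (1 - 4 / 5 * η)

/-- **CT0** (short-medium; from CPX).  The size of the main term.
Proof. `q ≤ 2 Q`, so `T0 ≥ T.card L² V/(8 Q³) ≥ (c Q / log Q) (S/(40000 E²)) (S/(4 E))/(8 Q³) = c' S²/(Q² log Q) ≥ c'' N^(2 - 8η/3)/(N^(1 - 2η) log N) = c'' N^(1 - 2η/3)/log N` and `2/3 < 17/25`. -/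
def CT0_stmt : Prop :=
  ∀ (E B : ℕ) (η c : ℝ), 1 ≤ E → 1 ≤ B → 0 < η → η ≤ 1 / 100 → 0 < c → ∃ N₀ : ℝ, ∀ N : ℝ, N₀ ≤ N →
    ∀ (Q L V : ℕ) (z₀ : ℤ) (S : ℝ) (T : Finset OO), Rg B η N Q → Par E Q L V z₀ N S → KF Q T →
    c * Q / Real.log Q ≤ (T.card : ℝ) → N ^ (1 - 17 / 25 * η) ≤ T0 T L V

/-- **CGD** (medium; from CLB, CBS, CT0, CTR, CSP, CPX).  Many good tuples.
Proof. `w₀ := ⌈8 C₀⌉` (`C₀` of CBS), `P := ∏` of the primes `≤ w₀` except `2, 5`, `E := 16 · 5^6 · P`. The tuples with `q ∣ N(M)`: at most `∑_k 2 L (L/q + 1) ≤ 4 L² T.card / Q ≤ 4 L² ≤ 4 S` (`q ≤ 2 Q ≤ L`, `T.card ≤ Q`; `V ≤ Q³`; CTR). `Λ` = the primes `w₀ < l ≤ N^(3η/4)`, not dividing `E`, `G l` from CSP.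
Remove from all tuples (CLB) these and those of CBS: at least `(3/4) T0 - N^(1 - 5η/4) - (1/8) T0 - N^(1 - 4η/5) - 4 S ≥ T0/2 ≥ N^(1 - 7η/10)` (CT0; `7/10 < 4/5 < 5/4 < 4/3`). A remaining tuple: if `2 φ n' k² = r5 s - N(M)` and a prime `l ≤ N^(3η/4)`, `l ∤ 10 P`, divides `n`, then `l > w₀` and CSP gives a contradiction. -/
def CGD_stmt : Prop :=
  ∃ P : ℕ, 1 ≤ P ∧ Nat.Coprime P 10 ∧ ∀ (B : ℕ) (η c : ℝ), 1 ≤ B → 0 < η → η ≤ 1 / 100 → 0 < c →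
    ∃ N₀ : ℝ, ∀ N : ℝ, N₀ ≤ N →
    ∀ (Q L V : ℕ) (z₀ : ℤ) (S : ℝ) (T : Finset OO) (M₀ : OO → OO) (s₀ : OO → ℤ), Rg B η N Q →
    Par (16 * 5 ^ 6 * P) Q L V z₀ N S → KF Q T → c * Q / Real.log Q ≤ (T.card : ℝ) →
    (∀ k ∈ T, 0 ≤ (M₀ k).re ∧ (M₀ k).re < 16 * 5 ^ 6 * P ∧ 0 ≤ (M₀ k).im ∧
      (M₀ k).im < 16 * 5 ^ 6 * P ∧ 0 ≤ s₀ k ∧ s₀ k < 16 * 5 ^ 6 * P) →
    ∃ W : OO → Finset (ℤ × ℤ × ℤ), (∀ k ∈ T, W k ⊆ Hit (16 * 5 ^ 6 * P) k (M₀ k) (s₀ k) L V z₀) ∧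
      N ^ (1 - 7 / 10 * η) ≤ ∑ k ∈ T, ((W k).card : ℝ) ∧
      ∀ k ∈ T, ∀ t ∈ W k, ¬ k.norm ∣ (pM (16 * 5 ^ 6 * P) (M₀ k) t).norm ∧
        ∀ (n : OO) (l : ℕ), 2 * ph * star n * k ^ 2 =
          r5 * (ps (16 * 5 ^ 6 * P) (s₀ k) t : OO) - ((pM (16 * 5 ^ 6 * P) (M₀ k) t).norm : OO) →
          l.Prime → (l : ℝ) ≤ N ^ (3 / 4 * η) → (l : OO) ∣ n → l ∣ 10 * P

/-- **CFI** (medium; from CGD, CKS, CLO, CPA, CRG, CPX).  Assembly of block C.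
Proof. `P` of CGD, `E = 16 · 5^6 · P`. CKS with `X = N^(1/2 - η)` gives `Q, T` (`Rg B η N Q`, `T.card ≥ c Q/log Q`), CPX the parameters, CLO the classes `M₀ k, s₀ k`, CGD the tuples. For `k ∈ T`, `t ∈ W k`, `M = pM`, `s = ps`: CPA (`q` is coprime to `E`: `q > Q ≥ E` prime) gives `n, X, D`; the point is `⟨k, X, n, 25 * M, D⟩`. `IsPt`: `e1`, `e2` (times `25`: `star (25 k) = 25 star k`),
`X1`, `n1`, `kn`, `kn'`, `n2`, `D20` from CPA, `k0`: the norm of `k` is not `0`. CRG: the coordinates of `M` are in `[0, E (L + 1)) ≤ √S/100`, `S/2 ≤ E z₀ ≤ s ≤ E (z₀ + V + 1) ≤ S`. So `500 q⁴ D ≤ S³ = 500 N Q⁴` gives `D ≤ N`, `2000 q⁴ D ≥ S³/8 ≥ 62 N Q⁴`, `q ≤ 2 Q`: `D ≥ 62 N/32000 ≥ √N` and `D > 0`;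
`|norm n| ≤ 2 S²/Q² ≤ D` (`S² ≤ C N^(2 - 8η/3)`, `Q² ≥ N^(1 - 2η)`: `≤ C N^(1 - 2η/3)`). Bad primes `l ∣ n`, `l ≤ N^(3η/4)`: `l ∣ 10 P` (CGD); `l = 2`: `IsCoprime 2 n`; `l = 5`: `25 ∣ n - 1`; `l ∣ P`: `P ∣ n - 1`; contradiction. Two points with `k ∣ k₁`: the norms are primes and divide each other up to sign, `KF.inj`.
The map `(k, t) ↦` point is injective (`M` gives `x, y`; `r5 s = 2 φ n' k² + N(M)` gives `s`, `z`). -/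
def CFI_stmt : Prop := PTS_stmt

end Pool.Agent.RF
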